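import Pool.Agent.Helper76.CQ.Defs
import Pool.Agent.Helper96.CY.LocalForm

/-!
# Coordinates on a subspace; base change of polynomials
-/

namespace Pool.Agent.Helper76.CQ

open MvPolynomial Pool.Agent.Helper76.CY

/-- Independent vectors stay independent after restriction to suitable coordinates. -/
theorem exists_coords {K ι : Type*} [Field K] [Fintype ι] {n : ℕ} (τ : Fin n → ι → K)
    (hli : LinearIndependent K τ) : ∃ k : Fin n → ι,
      LinearIndependent K (fun j : Fin n => fun i : Fin n => τ i (k j)) := by
  classical
  set M : Matrix (Fin n) ι K := Matrix.of τ with hM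
  have h1 : M.rank = n := by
    have := LinearIndependent.rank_matrix (M := M) hli
    simpa using this
  rw [Matrix.rank_eq_finrank_span_cols] at h1
  have h2 : Submodule.span K (Set.range M.col) = ⊤ := by
    apply Submodule.eq_top_of_finrank_eq
    rw [h1]
    simp
  obtain ⟨b, hb, hb1, hb2⟩ := exists_linearIndependent K (Set.range M.col)
  rw [h2] at hb1
  have hfin : b.Finite := (Set.finite_range _).subset hb
  have : Fintype b := hfin.fintype
  have hcard : Fintype.card b = n := by
    have h3 := finrank_span_set_eq_card hb2
    rw [hb1, finrank_top] at h3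
    simp only [Module.finrank_fintype_fun_eq_card, Fintype.card_fin] at h3
    rw [← Set.toFinset_card]
    exact h3.symm
  let e : Fin n ≃ b := (Fintype.equivFinOfCardEq hcard).symm
  have h4 : ∀ j : Fin n, ∃ q : ι, M.col q = (e j : Fin n → K) := fun j => hb (e j).2
  choose k hk using h4
  refine ⟨k, ?_⟩
  have h5 : (fun j : Fin n => fun i : Fin n => τ i (k j)) = fun j => (e j : Fin n → K) := by
    funext j
    rw [← hk j]
    rfl
  rw [h5]
  exact hb2.comp e e.injective

theorem mem_idealOfVars_map {ι K K' : Type*} [Field K] [Field K'] [Algebra K K'] (d : ℕ)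
    (g : MvPolynomial ι K) (hg : g ∈ idealOfVars ι K ^ d) :
    MvPolynomial.map (algebraMap K K') g ∈ idealOfVars ι K' ^ d := by
  rw [mem_pow_idealOfVars_iff] at hg ⊢
  intro s hs
  refine hg s ?_
  rw [mem_support_iff, coeff_map] at hs
  rw [mem_support_iff]
  intro h
  exact hs (by rw [h, map_zero])

theorem homComp_map {ι K K' : Type*} [Field K] [Field K'] [Algebra K K'] (d : ℕ)
    (g : MvPolynomial ι K) : homogeneousComponent d (MvPolynomial.map (algebraMap K K') g) =
      MvPolynomial.map (algebraMap K K') (homogeneousComponent d g) := by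
  ext s
  rw [coeff_homogeneousComponent, coeff_map, coeff_map, coeff_homogeneousComponent]
  split_ifs
  · rfl
  · rw [map_zero]

theorem map_linMap {ι K K' : Type*} [Fintype ι] [DecidableEq ι] [Field K] [Field K']
    [Algebra K K'] (π : (ι → K) →ₗ[K] (ι → K)) (π' : (ι → K') →ₗ[K'] (ι → K'))
    (hππ : ∀ p q, π' (Pi.single q 1) p = algebraMap K K' (π (Pi.single q 1) p)) (q : ι) :
    MvPolynomial.map (algebraMap K K') (linMap π q) = linMap π' q := by
  rw [linMap, linMap, lin, lin, map_sum]
  refine Finset.sum_congr rfl fun p _ => ?_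
  rw [map_mul, map_X, map_C, LinearMap.comp_apply, LinearMap.comp_apply, LinearMap.proj_apply,
    LinearMap.proj_apply, hππ]

theorem map_aeval_map {ι κ K K' : Type*} [Field K] [Field K'] [Algebra K K']
    (φ : ι → MvPolynomial κ K) (g : MvPolynomial ι K) :
    MvPolynomial.map (algebraMap K K') (aeval φ g) =
      aeval (fun q => MvPolynomial.map (algebraMap K K') (φ q))
        (MvPolynomial.map (algebraMap K K') g) := by
  induction g using MvPolynomial.induction_on with
  | C a =>
    rw [map_C, aeval_C, aeval_C, MvPolynomial.algebraMap_eq, MvPolynomial.algebraMap_eq, map_C]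
  | add p q hp hq => rw [map_add, map_add, map_add, map_add, hp, hq]
  | mul_X p q hp => rw [map_mul, map_mul, map_mul, map_mul, hp, map_X, aeval_X, aeval_X]

end Pool.Agent.Helper76.CQ
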