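import Pool.Agent.Helper76.CQ.Coords
import Pool.Agent.Helper76.CY.AlgInd
import Pool.Agent.Helper26.CQ.ArcM

/-!
# The algebraic core over two fields
-/

namespace Pool.Agent.Helper76.CQ

open MvPolynomial Pool.Agent.Helper76.CY Pool.Agent.Helper96.CY
open Pool.Agent.Helper26.CQ (arc_evalM)

/-- An invertible linear substitution is injective. -/
theorem eq_zero_of_subst {K : Type*} [Field K] {n : ℕ} (N : Matrix (Fin n) (Fin n) K)
    (hN : LinearIndependent K (fun j : Fin n => fun i : Fin n => N i j))
    (G : MvPolynomial (Fin n) K)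
    (h : aeval (fun j => ∑ i, C (N i j) * X i : Fin n → MvPolynomial (Fin n) K) G = 0) :
    G = 0 := by
  classical
  have hu : IsUnit N.transpose := by
    rw [← Matrix.linearIndependent_rows_iff_isUnit]
    exact hN
  have hu2 : IsUnit N.det := by
    rw [← Matrix.det_transpose]
    exact (Matrix.isUnit_iff_isUnit_det _).1 hu
  have hPN : N⁻¹ * N = 1 := Matrix.nonsing_inv_mul N hu2
  have h5 : (aeval (fun i => ∑ l, C (N⁻¹ l i) * X l : Fin n → MvPolynomial (Fin n) K)).comp
      (aeval (fun j => ∑ i, C (N i j) * X i : Fin n → MvPolynomial (Fin n) K)) =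
      AlgHom.id K (MvPolynomial (Fin n) K) := by
    apply MvPolynomial.algHom_ext
    intro j
    rw [AlgHom.comp_apply, aeval_X, map_sum, AlgHom.id_apply]
    simp only [map_mul, aeval_X, aeval_C, MvPolynomial.algebraMap_eq, Finset.mul_sum]
    rw [Finset.sum_comm]
    have h6 : ∀ l : Fin n, ∑ i, C (N i j) * (C (N⁻¹ l i) * X l) =
        (C ((N⁻¹ * N) l j) * X l : MvPolynomial (Fin n) K) := by
      intro l
      rw [Matrix.mul_apply, map_sum, Finset.sum_mul]
      refine Finset.sum_congr rfl fun i _ => ?_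
      rw [map_mul]
      ring
    simp only [h6, hPN, Matrix.one_apply]
    rw [Finset.sum_eq_single j]
    · simp
    · intro b _ hb
      rw [if_neg hb, map_zero, zero_mul]
    · intro h
      exact absurd (Finset.mem_univ j) h
  have h6 := DFunLike.congr_fun h5 G
  rw [AlgHom.comp_apply, h, map_zero, AlgHom.id_apply] at h6
  exact h6.symm

theorem core2 {K K' O : Type*} [Field K] [Field K'] [Algebra K K'] [CommRing O] [IsDomain O]
    [Algebra K' O] [Algebra K O] [IsScalarTower K K' O]
    (t : O) (m : Ideal O) (ht0 : t ≠ 0) (htm : t ∈ m) (h1 : (1 : O) ∉ m)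
    (hU : ∀ (x : O) (c : K'), c ≠ 0 → x - algebraMap K' O c ∈ m → IsUnit x)
    (I : Ideal (MvPolynomial Idx K)) (π : (Idx → K) →ₗ[K] (Idx → K))
    (hπ : ∀ q, X q - linMap π q ∈ I ⊔ idealOfVars Idx K ^ 2)
    (π' : (Idx → K') →ₗ[K'] (Idx → K'))
    (hππ : ∀ p q, π' (Pi.single q 1) p = algebraMap K K' (π (Pi.single q 1) p))
    (τ : ℕ → Idx → K') (a : ℕ → Idx → O)
    (ha : ∀ n q, a n q - t * algebraMap K' O (τ n q) ∈ Ideal.span {t} * m)
    (haI : ∀ n, ∀ g ∈ I, aeval (a n) g = 0)
    (hspan : ∀ w, π' w ∈ Submodule.span K' (Set.range (fun i : Fin 11 => τ i)))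
    (hli : LinearIndependent K' (fun i : Fin 11 => τ i))
    (horb : ∀ (f : MvPolynomial Idx K') (d : ℕ), f.IsHomogeneous d → (∀ n, eval (τ n) f = 0) →
      aeval (fun q => ∑ i : Fin 11, C (τ i q) * X i : Idx → MvPolynomial (Fin 11) K') f = 0) :
    (compIdeal I).IsPrime ∧ (∀ n, ∀ f ∈ compIdeal I, aeval (a n) f = 0) ∧
      (∀ f, f ∉ compIdeal I → ∃ n, aeval (a n) f ≠ 0) ∧
      ∃ ℓ : Fin 11 → MvPolynomial Idx K, ∀ G : MvPolynomial (Fin 11) K,
        aeval ℓ G ∈ compIdeal I → G = 0 := by
  classical
  have hmap : ∀ n (g : MvPolynomial Idx K),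
      aeval (a n) (MvPolynomial.map (algebraMap K K') g) = aeval (a n) g := fun n g =>
    aeval_map_algebraMap K' (a n) g
  have hunit : ∀ c : K', algebraMap K' O c ∈ m → c = 0 := by
    intro c hc
    by_contra hne
    apply h1
    have h2 : (algebraMap K' O c⁻¹) * algebraMap K' O c ∈ m := m.mul_mem_left _ hc
    rwa [← map_mul, inv_mul_cancel₀ hne, map_one] at h2
  -- values of elements of the component ideal
  have hcomp : ∀ n, ∀ f ∈ compIdeal I, aeval (a n) f = 0 := by
    rintro n f ⟨s, hs, hsf⟩
    have h1 := haI n _ hsf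
    rw [map_mul] at h1
    have h2 := arc_evalM t m htm (τ n) (a n) (ha n) 0 (MvPolynomial.map (algebraMap K K') s)
      (by simp)
    have h3 : IsUnit (aeval (a n) s) := by
      apply hU _ (algebraMap K K' (constantCoeff s))
      · rw [Ne, map_eq_zero]
        exact hs
      · rw [homComp_map, pow_zero, one_mul, homogeneousComponent_zero, map_C, eval_C, hmap,
          Ideal.span_singleton_one, Ideal.top_mul] at h2
        exact h2
    exact (h3.mul_right_eq_zero).1 h1
  -- nonvanishing
  have hnz : ∀ (n d : ℕ) (g : MvPolynomial Idx K), g ∈ idealOfVars Idx K ^ d →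
      eval (τ n) (MvPolynomial.map (algebraMap K K') (homogeneousComponent d g)) ≠ 0 →
      aeval (a n) g ≠ 0 := by
    intro n d g hg hne h0
    have h2 := arc_evalM t m htm (τ n) (a n) (ha n) d (MvPolynomial.map (algebraMap K K') g)
      (mem_idealOfVars_map d g hg)
    rw [hmap, h0, zero_sub, neg_mem_iff, Ideal.mem_span_singleton_mul, homComp_map] at h2
    obtain ⟨c, hc, hc2⟩ := h2
    have h3 := mul_left_cancel₀ (pow_ne_zero _ ht0) hc2
    rw [h3] at hc
    exact hne (hunit _ hc)
  -- key
  have hnotin : ∀ F : MvPolynomial Idx K, aeval (linMap π) F ≠ 0 →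
      aeval (linMap π') (MvPolynomial.map (algebraMap K K') F) ≠ 0 := by
    intro F hF h0
    apply hF
    have h2 := map_aeval_map (K' := K') (linMap π) F
    have h3 : (fun q => MvPolynomial.map (algebraMap K K') (linMap π q)) = linMap π' := by
      funext q
      exact map_linMap π π' hππ q
    rw [h3, h0] at h2
    exact (map_eq_zero_iff _ (map_injective _ (algebraMap K K').injective)).1 h2
  have key : ∀ f g, f ∉ compIdeal I → g ∉ compIdeal I →
      ∃ n, aeval (a n) f ≠ 0 ∧ aeval (a n) g ≠ 0 := by
    intro f g hf hg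
    obtain ⟨d, f1, hf1, hff, hf2⟩ := local_form I π hπ f hf
    obtain ⟨e, g1, hg1, hgg, hg2⟩ := local_form I π hπ g hg
    have h1 : aeval (linMap π) (homogeneousComponent d f1 * homogeneousComponent e g1) ≠ 0 := by
      rw [map_mul]
      exact mul_ne_zero hf2 hg2
    have h2 : ∃ n, eval (τ n) (MvPolynomial.map (algebraMap K K')
        (homogeneousComponent d f1 * homogeneousComponent e g1)) ≠ 0 := by
      by_contra hcon
      push Not at hcon
      refine hnotin _ h1 (span_factor _ π' hspan _ (horb _ (d + e) ?_ hcon))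
      exact ((homogeneousComponent_isHomogeneous d f1).mul
        (homogeneousComponent_isHomogeneous e g1)).map _
    obtain ⟨n, hn⟩ := h2
    rw [map_mul, map_mul] at hn
    refine ⟨n, ?_, ?_⟩
    · have h3 := hnz n d f1 hf1 (left_ne_zero_of_mul hn)
      have h4 := haI n _ hff
      rw [map_sub, sub_eq_zero] at h4
      rwa [h4]
    · have h3 := hnz n e g1 hg1 (right_ne_zero_of_mul hn)
      have h4 := haI n _ hgg
      rw [map_sub, sub_eq_zero] at h4
      rwa [h4]
  refine ⟨⟨?_, ?_⟩, hcomp, ?_, ?_⟩
  · rw [Ideal.ne_top_iff_one]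
    intro h1
    have := hcomp 0 _ h1
    rw [map_one] at this
    exact one_ne_zero this
  · intro f g hfg
    by_contra hcon
    push Not at hcon
    obtain ⟨n, h1, h2⟩ := key f g hcon.1 hcon.2
    have h3 := hcomp n _ hfg
    rw [map_mul] at h3
    exact mul_ne_zero h1 h2 h3
  · intro f hf
    obtain ⟨n, h1, _⟩ := key f f hf hf
    exact ⟨n, h1⟩
  · obtain ⟨k, hk⟩ := exists_coords (fun i : Fin 11 => τ i) hli
    refine ⟨fun j => X (k j), fun G hG => ?_⟩
    by_contra hne
    have hex : ∃ d, homogeneousComponent d G ≠ 0 := by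
      by_contra hcon
      push Not at hcon
      apply hne
      rw [← sum_homogeneousComponent G]
      exact Finset.sum_eq_zero fun d _ => hcon d
    set d := Nat.find hex with hd
    have hd1 : homogeneousComponent d G ≠ 0 := Nat.find_spec hex
    have hd2 : ∀ e < d, homogeneousComponent e G = 0 := fun e he => by
      by_contra h
      exact Nat.find_min hex he h
    obtain ⟨h1, h2⟩ := aeval_order (fun j : Fin 11 => (X (k j) : MvPolynomial Idx K))
      (fun j => isHomogeneous_X _ _) G d hd2
    have h3 : ∀ n, eval (τ n) (MvPolynomial.map (algebraMap K K')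
        (homogeneousComponent d (aeval (fun j : Fin 11 => (X (k j) : MvPolynomial Idx K)) G))) =
        0 := by
      intro n
      by_contra h
      exact hnz n d _ h1 h (hcomp n _ hG)
    have h4 := horb _ d ((homogeneousComponent_isHomogeneous d _).map _) h3
    rw [h2, map_aeval_map] at h4
    have h5 : aeval (fun q => ∑ i : Fin 11, C (τ i q) * X i : Idx → MvPolynomial (Fin 11) K')
        (aeval (fun q => MvPolynomial.map (algebraMap K K') (X (k q) : MvPolynomial Idx K))
          (MvPolynomial.map (algebraMap K K') (homogeneousComponent d G))) =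
        aeval (fun j => ∑ i : Fin 11, C ((Matrix.of fun i j => τ i (k j)) i j) * X i :
          Fin 11 → MvPolynomial (Fin 11) K')
          (MvPolynomial.map (algebraMap K K') (homogeneousComponent d G)) := by
      rw [← AlgHom.comp_apply]
      congr 1
      apply MvPolynomial.algHom_ext
      intro j
      rw [AlgHom.comp_apply, aeval_X, map_X, aeval_X, aeval_X]
      rfl
    rw [h5] at h4
    have h6 := eq_zero_of_subst _ hk _ h4
    exact hd1 ((map_eq_zero_iff _ (map_injective _ (algebraMap K K').injective)).1 h6)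

end Pool.Agent.Helper76.CQ
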