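import Pool.Agent.Helper76.CY.Scheme
import Pool.Agent.Helper76.CY.Ex

/-!
# Planes in cubic eightfolds over `Q_2`: definitions
-/

namespace Pool.Agent.Helper76.CQ

open MvPolynomial Pool.Agent.Helper76.CY Filter Topology

/-! ## The base point -/

/-- The third derivatives of the form `FZ`, as integers. -/
def D0Z (i j k : Fin 10) : ℤ :=
  orb 3 3 i j k - orb 0 4 i j k + orb 1 5 i j k - orb 2 4 i j k + orb 2 5 i j k + orb 2 6 i j k +
    2 * orb 2 7 i j k + orb 3 6 i j k

/-- The third derivatives of the form `F0`, in any ring. -/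
def D0 (K : Type*) [Ring K] : Ten K := fun i j k => (D0Z i j k : K)

/-- The cubic form
`∑ x_l x_{l+3}^2 - x_l^2 x_{l+4} + x_l x_{l+1} x_{l+5} - x_l x_{l+2} x_{l+4} + x_l x_{l+2} x_{l+5} +
x_l x_{l+2} x_{l+6} + 2 x_l x_{l+2} x_{l+7} + x_l x_{l+3} x_{l+6}` (indices modulo 10). -/
noncomputable def F0 : MvPolynomial (Fin 10) ℚ :=
  ∑ l : Fin 10, (X l * X (l + 3) ^ 2 - X l ^ 2 * X (l + 4) + X l * X (l + 1) * X (l + 5) -
    X l * X (l + 2) * X (l + 4) + X l * X (l + 2) * X (l + 5) + X l * X (l + 2) * X (l + 6) +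
    2 * (X l * X (l + 2) * X (l + 7)) + X l * X (l + 3) * X (l + 6))

/-! ## Planes, tangent vectors -/

/-- The plane with matrix `a` lies in the cubic `D(x, x, x) = 0`. -/
def Pl {K R : Type*} [CommRing K] [CommRing R] [Algebra K R] (D : Ten K) (a : Idx → R) : Prop :=
  ∀ i j k : Fin 3, tri D (row a i) (row a j) (row a k) = 0

/-- The tangent space at the origin of the chart of the variety of planes. -/
def tanSp {K : Type*} [Field K] (D : Ten K) : Submodule K (Idx → K) where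
  carrier := {τ | ∀ i j k : Fin 3, tanVal D τ i j k = 0}
  add_mem' := by
    intro a b ha hb i j k
    have h : ∀ i, tv (a + b) i = tv a i + tv b i := by
      intro i
      funext j
      simp only [tv, Pi.add_apply]
      split_ifs <;> simp
    have h1 := ha i j k
    have h2 := hb i j k
    simp only [tanVal] at h1 h2 ⊢
    rw [h, h, h, tri_add_left, tri_add_mid, tri_add_right]
    linear_combination h1 + h2
  zero_mem' := by
    intro i j k
    have h : ∀ i, tv (0 : Idx → K) i = 0 := by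
      intro i
      funext j
      simp only [tv, Pi.zero_apply]
      split_ifs <;> simp
    simp only [tanVal, h, tri_zero_left, tri_zero_mid, tri_zero_right, add_zero]
  smul_mem' := by
    intro c a ha i j k
    have h : ∀ i, tv (c • a) i = c • tv a i := by
      intro i
      funext j
      simp only [tv, Pi.smul_apply, smul_eq_mul]
      split_ifs <;> simp
    have h1 := ha i j k
    simp only [tanVal] at h1 ⊢
    rw [h, h, h, tri_smul_left, tri_smul_mid, tri_smul_right]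
    linear_combination c * h1

/-! ## Arcs with respect to an ideal -/

/-- An arc of planes over the ring `O` with parameter `t`, tangent vector `τ` modulo the ideal `m`
and entries in the subring `S`. -/
structure ArcM {K : Type*} [Field K] {O : Type*} [CommRing O] [Algebra K O] (t : O) (m : Ideal O)
    (S : Subring O) (D : Ten K) (τ : Idx → K) (a : Idx → O) : Prop where
  plane : Pl D a
  tangent : ∀ q, a q - t * algebraMap K O (τ q) ∈ Ideal.span {t} * m
  mem : ∀ q, a q ∈ S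

/-! ## Bounded germs of sequences of 2-adic numbers -/

/-- Bounded sequences. -/
def Bdd : Subring (ℕ → ℚ_[2]) where
  carrier := {x | ∃ C : ℝ, ∀ m, ‖x m‖ ≤ C}
  add_mem' := by
    rintro x y ⟨C, hC⟩ ⟨D, hD⟩
    exact ⟨C + D, fun m => (norm_add_le _ _).trans (add_le_add (hC m) (hD m))⟩
  mul_mem' := by
    rintro x y ⟨C, hC⟩ ⟨D, hD⟩
    refine ⟨C * D, fun m => ?_⟩
    rw [Pi.mul_apply, norm_mul]
    exact mul_le_mul (hC m) (hD m) (norm_nonneg _) ((norm_nonneg _).trans (hC m))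
  one_mem' := ⟨1, fun m => by simp⟩
  zero_mem' := ⟨0, fun m => by simp⟩
  neg_mem' := by
    rintro x ⟨C, hC⟩
    exact ⟨C, fun m => by rw [Pi.neg_apply, norm_neg]; exact hC m⟩

/-- A nonprincipal ultrafilter. -/
noncomputable abbrev UU : Ultrafilter ℕ := hyperfilter ℕ

/-- The ideal of the sequences that vanish along the ultrafilter. -/
def Zer : Ideal Bdd where
  carrier := {x | ∀ᶠ m in (UU : Filter ℕ), x.1 m = 0}
  add_mem' := by
    intro x y hx hy
    filter_upwards [hx, hy] with m h1 h2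
    change x.1 m + y.1 m = 0
    rw [h1, h2, add_zero]
  zero_mem' := Eventually.of_forall fun m => rfl
  smul_mem' := by
    intro c x hx
    filter_upwards [hx] with m h1
    change c.1 m * x.1 m = 0
    rw [h1, mul_zero]

/-- The ring of bounded germs along the ultrafilter. -/
abbrev GO : Type := Bdd ⧸ Zer

/-- The germ of a bounded sequence. -/
noncomputable def gmk (x : ℕ → ℚ_[2]) (hx : ∃ C : ℝ, ∀ m, ‖x m‖ ≤ C) : GO := Ideal.Quotient.mk Zer ⟨x, hx⟩

/-- Constant sequences. -/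
noncomputable def cst : ℚ_[2] →+* Bdd where
  toFun c := ⟨fun _ => c, ‖c‖, fun _ => le_rfl⟩
  map_one' := rfl
  map_mul' _ _ := rfl
  map_zero' := rfl
  map_add' _ _ := rfl

noncomputable instance : Algebra ℚ_[2] GO := ((Ideal.Quotient.mk Zer).comp cst).toAlgebra

/-- The germs that tend to zero. -/
def sm : Ideal GO where
  carrier := {z | ∃ x : Bdd, Ideal.Quotient.mk Zer x = z ∧ Tendsto x.1 UU (𝓝 0)}
  add_mem' := by
    rintro _ _ ⟨x, rfl, hx⟩ ⟨y, rfl, hy⟩
    refine ⟨x + y, map_add _ _ _, ?_⟩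
    have := hx.add hy
    rwa [add_zero] at this
  zero_mem' := ⟨0, map_zero _, tendsto_const_nhds⟩
  smul_mem' := by
    rintro c _ ⟨x, rfl, hx⟩
    obtain ⟨c, rfl⟩ := Ideal.Quotient.mk_surjective c
    refine ⟨c * x, map_mul _ _ _, ?_⟩
    obtain ⟨C, hC⟩ := c.2
    rw [tendsto_zero_iff_norm_tendsto_zero] at hx ⊢
    have h1 : Tendsto (fun m => C * ‖x.1 m‖) UU (𝓝 0) := by
      have := hx.const_mul C
      rwa [mul_zero] at this
    refine squeeze_zero (fun m => norm_nonneg _) (fun m => ?_) h1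
    change ‖c.1 m * x.1 m‖ ≤ _
    rw [norm_mul]
    exact mul_le_mul_of_nonneg_right (hC m) (norm_nonneg _)

/-- The germs of sequences with `m`-th term in the field `L m`. -/
def rat (L : ℕ → Subfield ℚ_[2]) : Subring GO where
  carrier := {z | ∃ x : Bdd, Ideal.Quotient.mk Zer x = z ∧ ∀ m, x.1 m ∈ L m}
  add_mem' := by
    rintro _ _ ⟨x, rfl, hx⟩ ⟨y, rfl, hy⟩
    exact ⟨x + y, map_add _ _ _, fun m => (L m).add_mem (hx m) (hy m)⟩
  mul_mem' := by
    rintro _ _ ⟨x, rfl, hx⟩ ⟨y, rfl, hy⟩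
    exact ⟨x * y, map_mul _ _ _, fun m => (L m).mul_mem (hx m) (hy m)⟩
  one_mem' := ⟨1, map_one _, fun m => (L m).one_mem⟩
  zero_mem' := ⟨0, map_zero _, fun m => (L m).zero_mem⟩
  neg_mem' := by
    rintro _ ⟨x, rfl, hx⟩
    exact ⟨-x, map_neg _ _, fun m => (L m).neg_mem (hx m)⟩

/-! ## Frames -/

/-- The base change of a tensor. -/
def upT {K : Type*} (K' : Type*) [CommSemiring K] [Semiring K'] [Algebra K K'] (D : Ten K) :
    Ten K' :=
  fun i j k => algebraMap K K' (D i j k)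

/-- The frame `g_l = e_l + ∑_d Γ_{l,d} e_{l+d+1}`. -/
def frame {K : Type*} [Ring K] (Γ : Fin 10 × Fin 9 → K) (l : Fin 10) : Fin 10 → K := fun j =>
  (if j = l then 1 else 0) + ∑ d : Fin 9, if j = l + (Fin.castSucc d + 1) then Γ (l, d) else 0

/-- The tensor in the coordinates of a frame. -/
def frT {K R : Type*} [CommRing K] [CommRing R] [Algebra K R] (D : Ten K)
    (g : Fin 10 → Fin 10 → R) : Ten R := fun i j k => tri D (g i) (g j) (g k)

/-- The nine monomials `x_0 x_b x_c`, `0 ≤ b ≤ c ≤ 3`, other than `x_0 x_3 ^ 2`. -/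
def mon9 : Fin 9 → Fin 10 × Fin 10 :=
  ![(0, 0), (0, 1), (0, 2), (0, 3), (1, 1), (1, 2), (1, 3), (2, 2), (2, 3)]

/-- The coefficients of the monomials that have to vanish. -/
def kill {K R : Type*} [CommRing K] [CommRing R] [Algebra K R] (D : Ten K)
    (Γ : Fin 10 × Fin 9 → R) (p : Fin 10 × Fin 9) : R :=
  tri D (frame Γ p.1) (frame Γ (p.1 + (mon9 p.2).1)) (frame Γ (p.1 + (mon9 p.2).2))

/-! ## Third derivatives of a cubic form -/

/-- The number of orderings: `i! j! k!` in the notation of exponents. -/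
def mult3 (i j k : Fin 10) : ℕ :=
  if i = j then (if j = k then 6 else 2) else if j = k ∨ i = k then 2 else 1

/-- The third derivatives of a cubic form. -/
noncomputable def third {K : Type*} [CommRing K] (F : MvPolynomial (Fin 10) K) : Ten K := fun i j k =>
  (mult3 i j k : K) * coeff (Finsupp.single i 1 + Finsupp.single j 1 + Finsupp.single k 1) F

/-- The form `F` in the coordinates given by the rows of the matrix `g`. -/
noncomputable def inFrame {K L : Type*} [CommRing K] [CommRing L] [Algebra K L]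
    (g : Fin 10 → Fin 10 → L) (F : MvPolynomial (Fin 10) K) : MvPolynomial (Fin 10) L :=
  aeval (fun j => ∑ i, C (g i j) * X i) F

/-! ## Newton polygons with one slope -/

/-- The polynomial `χ` is monic of degree 11 with Newton polygon the segment from `(0, s)` to
`(11, 0)`. -/
structure Slope (s : ℕ) (χ : Polynomial ℚ_[2]) : Prop where
  monic : χ.Monic
  deg : χ.natDegree = 11
  le : ∀ i < 11, ‖χ.coeff i‖ ^ 11 ≤ (1 / 2 : ℝ) ^ (s * (11 - i))
  zero : ‖χ.coeff 0‖ = (1 / 2 : ℝ) ^ s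

/-- The characteristic polynomial of the base point. -/
noncomputable def chi0 : Polynomial ℤ :=
  Polynomial.X ^ 11 + Polynomial.C 6 * Polynomial.X ^ 10 + Polynomial.C 16 * Polynomial.X ^ 9 +
    Polynomial.C 30 * Polynomial.X ^ 8 + Polynomial.C 24 * Polynomial.X ^ 7 +
    Polynomial.C 8 * Polynomial.X ^ 6 + Polynomial.C 20 * Polynomial.X ^ 5 -
    Polynomial.C 56 * Polynomial.X ^ 4 + Polynomial.C 8 * Polynomial.X ^ 3 -
    Polynomial.C 24 * Polynomial.X ^ 2 - Polynomial.C 32 * Polynomial.X - Polynomial.C 8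

/-- The matrix of the differential at the base point, row by row. -/
def bzRow (t : Idx → ℤ) : Idx → ℤ := fun p =>
  match p.1.val, p.2.val with
  | 0, 0 => t (1, 1)
  | 0, 1 => t (1, 2)
  | 0, 2 => t (1, 3)
  | 0, 3 => t (1, 4)
  | 0, 4 => t (1, 5)
  | 0, 5 => t (1, 6)
  | 0, _ => -2 * t (0, 0) - 3 * t (0, 2) + t (0, 4) + t (0, 5) - t (0, 6) + 2 * t (1, 0) -
      t (1, 2) + 4 * t (1, 3) + 4 * t (1, 4) + 7 * t (1, 5) - 3 * t (1, 6) + 2 * t (2, 0) +
      3 * t (2, 2) - t (2, 4) - t (2, 5) + t (2, 6)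
  | 1, 0 => t (2, 1)
  | 1, 1 => t (2, 2)
  | 1, 2 => t (2, 3)
  | 1, 3 => t (2, 4)
  | 1, 4 => t (2, 5)
  | 1, 5 => t (2, 6)
  | 1, _ => -2 * t (0, 0) - 2 * t (0, 2) - t (0, 3) - t (0, 5) - t (1, 2) + t (1, 3) +
      2 * t (1, 5) - t (1, 6) + 2 * t (2, 0) + 3 * t (2, 2) + t (2, 4) - t (2, 5) + t (2, 6)
  | _, 0 => 4 * t (0, 0) + 4 * t (0, 2) + 2 * t (0, 3) + t (0, 4) + 2 * t (0, 5) + t (1, 2) -
      t (1, 3) - 2 * t (1, 5) + t (1, 6) - 2 * t (2, 0) - 3 * t (2, 2) + t (2, 5) - t (2, 6)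
  | _, 1 => t (0, 2) - t (0, 3) - t (0, 4) - 2 * t (0, 5) + t (0, 6) - 2 * t (1, 0) -
      2 * t (1, 2) - t (1, 3) - t (1, 4) - t (1, 5)
  | _, 2 => -t (1, 4) + t (2, 2) - t (2, 3) - t (2, 4) - 2 * t (2, 5) + t (2, 6)
  | _, 3 => 2 * t (0, 0) + 2 * t (0, 2) + t (0, 3) + t (0, 5) + t (1, 2) - t (1, 3) -
      2 * t (1, 5) + t (1, 6) - 2 * t (2, 0) - 3 * t (2, 2) + t (2, 5) - t (2, 6)
  | _, 4 => t (0, 2) - t (0, 3) - t (0, 4) - 2 * t (0, 5) + t (0, 6) - 2 * t (1, 0) - t (1, 2) -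
      2 * t (1, 3) - 2 * t (1, 4) - 3 * t (1, 5) + t (1, 6)
  | _, 5 => -t (1, 4) + t (2, 2) - t (2, 3) - 2 * t (2, 4) - 2 * t (2, 5) + t (2, 6)
  | _, _ => 2 * t (0, 0) + 2 * t (0, 2) + t (0, 3) + t (0, 5) + t (1, 2) - t (1, 3) -
      2 * t (1, 5) + t (1, 6) - 2 * t (2, 0) - 3 * t (2, 2) + t (2, 5) - t (2, 6)

/-- The matrix of the differential at the base point. -/
def Bz : Matrix Idx Idx ℤ := fun p q => bzRow (Pi.single q 1) p

/-- The Jacobian matrix of the equations `kill` at the base point. -/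
def J0 : Matrix (Fin 10 × Fin 9) (Fin 10 × Fin 9) ℤ := fun p r =>
  (if p.1 = r.1 then D0Z (r.1 + (Fin.castSucc r.2 + 1)) (p.1 + (mon9 p.2).1) (p.1 + (mon9 p.2).2)
    else 0) +
  (if p.1 + (mon9 p.2).1 = r.1 then D0Z p.1 (r.1 + (Fin.castSucc r.2 + 1)) (p.1 + (mon9 p.2).2)
    else 0) +
  (if p.1 + (mon9 p.2).2 = r.1 then D0Z p.1 (p.1 + (mon9 p.2).1) (r.1 + (Fin.castSucc r.2 + 1))
    else 0)

end Pool.Agent.Helper76.CQ
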