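import Pool.Agent.Helper76.CQ.Defs

/-!
# Change of charts: definitions
-/

namespace Pool.Agent.Helper76.CQ

open MvPolynomial Pool.Agent.Helper76.CY

/-- The left 3 x 3 block of a 3 x 10 matrix. -/
def blk {T : Type*} (R : Fin 3 → Fin 10 → T) : Matrix (Fin 3) (Fin 3) T :=
  Matrix.of fun i j => R i (c3 j)

/-- The chart coordinates of the plane spanned by the rows of a 3 x 10 matrix `(A | B)`: the
matrix `A⁻¹ B`. -/
noncomputable def chart {T : Type*} [CommRing T] (R : Fin 3 → Fin 10 → T) : Idx → T := fun q =>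
  ∑ j, (blk R)⁻¹ q.1 j * R j ⟨(q.2 : ℕ) + 3, by omega⟩

/-- The rows of the matrix `(1 | y) g`. -/
def move {T : Type*} [CommRing T] (g : Matrix (Fin 10) (Fin 10) T) (y : Idx → T) :
    Fin 3 → Fin 10 → T := fun i j => ∑ l, row y i l * g l j

/-- The chart coordinates of the plane with matrix `(1 | y)` in the frame `g`. -/
noncomputable def chg {T : Type*} [CommRing T] (g : Matrix (Fin 10) (Fin 10) T) (y : Idx → T) :
    Idx → T := chart (move g y)

/-- The determinant of the left block of `(1 | y) g`. -/
def dch {T : Type*} [CommRing T] (g : Matrix (Fin 10) (Fin 10) T) (y : Idx → T) : T :=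
  (blk (move g y)).det

end Pool.Agent.Helper76.CQ
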