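import Pool.Agent.Helper76.CQ.Near
import Pool.Agent.Helper57.CQ.SlopeRatio
import Pool.Agent.Helper33.CQ.Near2
import Pool.Agent.Helper33.CQ.Near
import Pool.Agent.Helper4.CQ.Bmap
import Pool.Agent.Helper66.CQ.Frame
import Pool.Agent.Helper7.CQ.Cubic
import Pool.Agent.Helper13.CQ.Pts
import Pool.Agent.Helper7.CQ.Numer
import Pool.Agent.Helper94.CQ.FrameDch
import Pool.Agent.Helper77.CQ.D1
import Pool.Agent.Helper50.CQ.DescPoints
import Pool.Agent.Helper78.CQ.D4b
import Pool.Agent.Helper94.CQ.DescIndep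

/-!
# Potential density for a 2-adically open set of cubic eightfolds
-/

namespace Pool.Agent.Helper76.CQ

open MvPolynomial Pool.Agent.Helper76.CY Filter Topology AlgebraicGeometry CategoryTheory
open Pool.Agent.Helper15
open Pool.Agent.Helper57.CQ (slope_irreducible)
open Pool.Agent.Helper57.CQ (slope_ratio)
open Pool.Agent.Helper33.CQ (window_near)
open Pool.Agent.Helper33.CQ (frame_near)
open Pool.Agent.Helper4.CQ (exists_Bmap)
open Pool.Agent.Helper66.CQ (exists_frame)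
open Pool.Agent.Helper7.CQ (third_F0)
open Pool.Agent.Helper7.CQ (third_swap12)
open Pool.Agent.Helper7.CQ (third_swap23)
open Pool.Agent.Helper7.CQ (cubic_third)
open Pool.Agent.Helper7.CQ (cubic_frT)
open Pool.Agent.Helper13.CQ (exists_pts)
open Pool.Agent.Helper7.CQ (dch_map)
open Pool.Agent.Helper94.CQ (frame_dch)
open Pool.Agent.Helper77.CQ (pl_chg)
open Pool.Agent.Helper50.CQ (desc_points)
open Pool.Agent.Helper78.CQ (desc_comp)
open Pool.Agent.Helper94.CQ (desc_indep)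

theorem exists_mu (χ : Polynomial ℚ_[2]) (hs : Slope 30 χ) (h10 : χ.coeff 10 ≠ 0) :
    ∃ μ : Fin 11 → PadicAlgCl 2, Function.Injective μ ∧ (∀ i, Polynomial.aeval (μ i) χ = 0) ∧
      ∀ a b : Fin 11 → ℕ, ∑ i, a i = ∑ i, b i → ∏ i, μ i ^ a i = ∏ i, μ i ^ b i → a = b := by
  have h11 : ¬ 11 ∣ 30 := by norm_num
  have hχ := slope_irreducible h11 hs
  obtain ⟨μ, hμ, hroot⟩ := Pool.Agent.Helper87.CY.exists_roots (K := ℚ_[2])
    (M := PadicAlgCl 2) χ hχ hs.deg
  refine ⟨μ, hμ, fun i => (hroot _).2 ⟨i, rfl⟩, fun a b hab h => ?_⟩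
  by_contra hne
  have h0 : ∀ i, μ i ≠ 0 := by
    intro i hi
    have h1 : Polynomial.aeval (0 : PadicAlgCl 2) χ = 0 := by
      rw [hroot]
      exact ⟨i, hi⟩
    have h2 : χ.coeff 0 = 0 := by
      have h3 : algebraMap ℚ_[2] (PadicAlgCl 2) (χ.coeff 0) = 0 := by
        rw [Polynomial.coeff_zero_eq_aeval_zero', h1]
      exact (map_eq_zero _).1 h3
    have h3 := hs.zero
    rw [h2, norm_zero] at h3
    have h4 : (0 : ℝ) < (1 / 2) ^ 30 := by positivity
    rw [← h3] at h4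
    exact lt_irrefl _ h4
  obtain ⟨ρ, hρ, hcl⟩ := Pool.Agent.Helper65.CY.exists_perm χ hχ hs.deg μ hμ
    (fun i => (hroot _).2 ⟨i, rfl⟩)
  obtain ⟨N, hN, hall⟩ := Pool.Agent.Helper59.CY.relation_pow_of Pool.Agent.Helper2.CY.bezout_int
    μ h0 ρ hρ hcl a b hne hab h
  exact slope_ratio h11 hs h10 μ hμ hroot N hN hall

theorem ret_inj (A : (Idx → ℚ_[2]) →ₗ[ℚ_[2]] (Idx → ℚ_[2])) (χ : Polynomial ℚ_[2])
    (hs : Slope 30 χ) (τ : Idx → ℚ_[2]) (h : Polynomial.aeval A χ τ = 0) (hA : A τ = 0) :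
    τ = 0 := by
  rw [← Polynomial.divX_mul_X_add χ, map_add, map_mul, Polynomial.aeval_X, Polynomial.aeval_C,
    LinearMap.add_apply, Module.End.mul_apply, hA, map_zero, zero_add] at h
  have h1 : χ.coeff 0 • τ = 0 := h
  rcases smul_eq_zero.1 h1 with h2 | h2
  · exfalso
    have h3 := hs.zero
    rw [h2, norm_zero] at h3
    have h4 : (0 : ℝ) < (1 / 2) ^ 30 := by positivity
    rw [← h3] at h4
    exact lt_irrefl _ h4
  · exact h2

theorem frame_up {K K' : Type*} [CommRing K] [CommRing K'] [Algebra K K']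
    (Γ : Fin 10 × Fin 9 → K) (l j : Fin 10) :
    algebraMap K K' (frame Γ l j) = frame (fun p => algebraMap K K' (Γ p)) l j := by
  simp only [frame, map_add, map_sum]
  congr 1
  · split_ifs <;> simp
  · refine Finset.sum_congr rfl fun d _ => ?_
    split_ifs <;> simp

theorem frT_up {L : Type*} [Field L] [Algebra ℚ L] [Algebra L ℚ_[2]] (D : Ten ℚ)
    (Γ : Fin 10 × Fin 9 → L) : upT ℚ_[2] (frT D (frame Γ) : Ten L) =
      frT D (frame fun p => algebraMap L ℚ_[2] (Γ p)) := by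
  funext i j k
  have : IsScalarTower ℚ L ℚ_[2] := inferInstance
  simp only [upT, frT]
  have h1 := tri_map D (IsScalarTower.toAlgHom ℚ L ℚ_[2]) (frame Γ i) (frame Γ j) (frame Γ k)
  rw [IsScalarTower.coe_toAlgHom'] at h1
  rw [h1]
  simp only [frame_up]

theorem const_of_window {K : Type*} [Field K] (D : Ten K) (hD : Window D)
    (f : MvPolynomial Idx K) (hf : f ∈ fanoIdeal (cubic D)) : constantCoeff f = 0 := by
  have h1 := aeval_fanoIdeal D (0 : Idx → K) (fun i j k => by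
    have h : ∀ i, row (0 : Idx → K) i = bv K (c3 i) := by
      intro i
      funext j
      simp only [row, Pi.add_apply, tv, Pi.zero_apply]
      split_ifs <;> simp
    rw [h, h, h, tri_bv, hD.zero', map_zero]) f hf
  rw [← h1, aeval_eq_eval]
  exact (DFunLike.congr_fun eval_zero' f).symm

/-- The core of the final theorem. -/
theorem open_set_core : ∃ N : ℕ, ∀ F : MvPolynomial (Fin 10) ℚ, F.IsHomogeneous 3 →
    (∀ e, ‖((coeff e F - coeff e F0 : ℚ) : ℚ_[2])‖ < (1 / 2) ^ N) →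
    ∃ (L : Type) (_ : Field L) (_ : NumberField L) (g : Matrix (Fin 10) (Fin 10) L),
      g.det ≠ 0 ∧ dch g 0 ≠ 0 ∧
      (∀ f ∈ fanoIdeal (cubic (frT (third F) g : Ten L)), constantCoeff f = 0) ∧
      (compIdeal (fanoIdeal (cubic (frT (third F) g : Ten L)))).IsPrime ∧
      (∀ f, f ∉ compIdeal (fanoIdeal (cubic (frT (third F) g : Ten L))) →
        ∃ y : Idx → L, eval y f ≠ 0 ∧
          ∀ h ∈ compIdeal (fanoIdeal (cubic (frT (third F) g : Ten L))), eval y h = 0) ∧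
      ∃ ℓ : Fin 11 → MvPolynomial Idx L, ∀ G : MvPolynomial (Fin 11) L,
        aeval ℓ G ∈ compIdeal (fanoIdeal (cubic (frT (third F) g : Ten L))) → G = 0 := by
  obtain ⟨B, hB, hBc⟩ := exists_Bmap
  obtain ⟨ε₁, hε₁, hnear⟩ := near B hB hBc
  obtain ⟨ε₂, hε₂, hwin⟩ := window_near
  obtain ⟨δ₀, hδ₀, hdch⟩ := frame_dch
  obtain ⟨δ₁, hδ₁, hfr⟩ := frame_near (min ε₁ ε₂) (lt_min hε₁ hε₂)
  obtain ⟨δ₂, hδ₂, hex⟩ := exists_frame (min δ₀ δ₁) (lt_min hδ₀ hδ₁)
  obtain ⟨N, hN⟩ := exists_pow_lt_of_lt_one (lt_min hδ₁ hδ₂) (by norm_num : (1 / 2 : ℝ) < 1)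
  refine ⟨N, fun F hF hclose => ?_⟩
  set D : Ten ℚ := third F with hDdef
  have hDc : ∀ i j k, ‖(D i j k : ℚ_[2]) - D0 ℚ_[2] i j k‖ < min δ₁ δ₂ := by
    intro i j k
    have h1 : D0 ℚ_[2] i j k = ((D0 ℚ i j k : ℚ) : ℚ_[2]) := by
      rw [D0, D0, Rat.cast_intCast]
    rw [h1, ← third_F0, hDdef, third, third, ← Rat.cast_sub, ← mul_sub, Rat.cast_mul, norm_mul]
    have h2 : ‖((((mult3 i j k : ℕ) : ℚ)) : ℚ_[2])‖ ≤ 1 := by
      rw [Rat.cast_natCast]
      exact_mod_cast Padic.norm_int_le_one (p := 2) (mult3 i j k : ℤ)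
    refine lt_of_le_of_lt (mul_le_of_le_one_left (norm_nonneg _) h2) ?_
    exact (hclose _).trans hN
  obtain ⟨Γ, hΓ1, hΓ2, hΓ3⟩ := hex D fun i j k => (hDc i j k).trans_le (min_le_right _ _)
  obtain ⟨hD'c, hdet⟩ := hfr D Γ (fun i j k => (hDc i j k).trans_le (min_le_left _ _))
    fun p => (hΓ1 p).trans_le (min_le_right _ _)
  have hdch' := hdch Γ fun p => (hΓ1 p).trans_le (min_le_left _ _)
  set D' : Ten ℚ_[2] := frT D (frame Γ) with hD'def
  have hsw12 : ∀ i j k, D' i j k = D' j i k := fun i j k => tri_swap12 (third_swap12 F) _ _ _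
  have hsw23 : ∀ i j k, D' i j k = D' i k j := fun i j k => tri_swap23 (third_swap23 F) _ _ _
  have hW : ∀ n : ℕ, Window (shift^[n] D') := hwin D' hsw12 hsw23
    (fun i j k => (hD'c i j k).trans_le (min_le_right _ _)) fun l o => hΓ3 (l, o)
  obtain ⟨hcontr, χ, hs, h10, hχ⟩ := hnear D' hW
    fun i j k => (hD'c i j k).trans_le (min_le_left _ _)
  set Bn : ℕ → (Idx → ℚ_[2]) →ₗ[ℚ_[2]] (Idx → ℚ_[2]) := fun n => B (shift^[n] D') with hBn
  have hBn' : ∀ n τ, IsStep (shift^[n] D') τ (Bn n τ) := fun n τ => hB _ (hW n) τ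
  obtain ⟨δ, hδ, hstep⟩ := contraction D' hW Bn hBn' 10 (shift_ten D') hcontr
    fun τ hτ h => ret_inj _ χ hs τ (hχ τ hτ) h
  -- a first field
  set L₀ := IntermediateField.adjoin ℚ (Set.range Γ) with hL₀
  have hfin : ∀ x ∈ Set.range Γ, IsIntegral ℚ x := by
    rintro _ ⟨p, rfl⟩
    exact (hΓ2 p).isIntegral
  have : FiniteDimensional ℚ L₀ := IntermediateField.finiteDimensional_adjoin hfin
  set Γ₀ : Fin 10 × Fin 9 → L₀ := fun p =>
    ⟨Γ p, IntermediateField.subset_adjoin _ _ ⟨p, rfl⟩⟩ with hΓ₀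
  have hup₀ : upT ℚ_[2] (frT D (frame Γ₀) : Ten L₀) = D' := frT_up D Γ₀
  have hW₀ : Window (frT D (frame Γ₀) : Ten L₀) := window_down (K' := ℚ_[2]) _ (by
    rw [hup₀]
    exact hW 0)
  obtain ⟨x₀, hx1, hx2, hx3, hx4⟩ := exists_pts _ hW₀ δ hδ
  have hx1' : ∀ q, IsAlgebraic ℚ (x₀ q) := fun q => (hx1 q).restrictScalars ℚ
  -- the final field
  set L := IntermediateField.adjoin ℚ (Set.range Γ ∪ Set.range x₀) with hL
  have hfinL : ∀ x ∈ Set.range Γ ∪ Set.range x₀, IsIntegral ℚ x := by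
    rintro _ (⟨p, rfl⟩ | ⟨p, rfl⟩)
    · exact (hΓ2 p).isIntegral
    · exact (hx1' p).isIntegral
  have : FiniteDimensional ℚ L := IntermediateField.finiteDimensional_adjoin hfinL
  have : NumberField L := {}
  set ΓL : Fin 10 × Fin 9 → L := fun p =>
    ⟨Γ p, IntermediateField.subset_adjoin _ _ (Or.inl ⟨p, rfl⟩)⟩ with hΓL
  have hup : upT ℚ_[2] (frT D (frame ΓL) : Ten L) = D' := frT_up D ΓL
  set DL : Ten L := frT D (frame ΓL) with hDL
  have hDLmem : ∀ i j k, D' i j k ∈ (algebraMap L ℚ_[2]).fieldRange := by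
    intro i j k
    rw [← hup]
    exact ⟨DL i j k, rfl⟩
  have hx5 : ∀ q, x₀ q ∈ (algebraMap L ℚ_[2]).fieldRange := fun q =>
    ⟨⟨x₀ q, IntermediateField.subset_adjoin _ _ (Or.inr ⟨q, rfl⟩)⟩, rfl⟩
  have hx2' : Pl D' x₀ := by
    intro i j k
    rw [← hup₀, tri_upT]
    exact hx2 i j k
  obtain ⟨x, hy1, hy2, hy3, hy4⟩ := exists_seq D' δ (algebraMap L ℚ_[2]).fieldRange
    (hstep _ hDLmem) x₀ hx5 hx2' hx3 hx4
  obtain ⟨μ, hμ, hroot, hind⟩ := exists_mu χ hs h10
  obtain ⟨h1, h2, h3⟩ := main_window DL (by rw [hup]; exact hW) Bn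
    (by rw [hup]; exact hBn') 10 (by rw [hup]; exact shift_ten D') χ
    (slope_irreducible (by norm_num) hs) hs.deg (by rw [hup]; exact hχ) μ hμ hroot hind x hy1
    (by rw [hup]; exact hy2) hy3 hy4
  have h5 : (Matrix.of (frame Γ) : Matrix (Fin 10) (Fin 10) ℚ_[2]) =
      (Matrix.of (frame ΓL)).map (algebraMap L ℚ_[2]) := by
    ext i j
    exact (frame_up ΓL i j).symm
  refine ⟨L, inferInstance, inferInstance, Matrix.of (frame ΓL), ?_, ?_, ?_, h1, h2, h3⟩
  · intro h0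
    apply hdet
    rw [h5, ← RingHom.mapMatrix_apply, ← RingHom.map_det, h0, map_zero]
  · intro h0
    apply hdch'
    have h6 := dch_map (algebraMap L ℚ_[2]) (Matrix.of (frame ΓL)) (0 : Idx → L)
    rw [h0, map_zero, ← h5] at h6
    have h7 : (fun q : Idx => algebraMap L ℚ_[2] ((0 : Idx → L) q)) = 0 := by
      funext q
      simp
    rw [h7] at h6
    exact h6.symm
  · exact const_of_window DL (window_down (K' := ℚ_[2]) _ (by rw [hup]; exact hW 0))

/-- Potential density for a 2-adically open set of cubic forms, in the coordinates of a frame. -/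
theorem open_set : ∃ N : ℕ, ∀ F : MvPolynomial (Fin 10) ℚ, F.IsHomogeneous 3 →
    (∀ e, ‖((coeff e F - coeff e F0 : ℚ) : ℚ_[2])‖ < (1 / 2) ^ N) →
    ∃ (L : Type) (_ : Field L) (_ : NumberField L) (g : Matrix (Fin 10) (Fin 10) L),
      g.det ≠ 0 ∧ ∃ P : Ideal (MvPolynomial Idx L),
        IsComponentAtOrigin (fanoIdeal (inFrame g F)) P ∧
        (∃ ℓ : Fin 11 → MvPolynomial Idx L, AlgebraicIndependent L
          (fun i => (Ideal.Quotient.mk P (ℓ i) : MvPolynomial Idx L ⧸ P))) ∧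
        ∀ (X : Scheme.{0}) (s : X ⟶ Spec (CommRingCat.of L)) [IrreducibleSpace X],
          BirationalOver L X (affineScheme P) s (affineStr P) → Dense (ratPts L L X s) := by
  obtain ⟨N, hN⟩ := open_set_core
  refine ⟨N, fun F hF hc => ?_⟩
  obtain ⟨L, _, _, g, hg, -, h0, h1, h2, ℓ, h3⟩ := hN F hF hc
  have hid : fanoIdeal (cubic (frT (third F) g : Ten L)) = fanoIdeal (inFrame g F) := by
    rw [cubic_frT, cubic_third F hF]
    have h4 : inFrame g (C 6 * F) = C 6 * inFrame g F := by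
      rw [inFrame, map_mul, algHom_C, ← inFrame]
      congr 1
      rw [map_ofNat, map_ofNat]
    rw [h4, fanoIdeal_C_mul 6 (by norm_num)]
  rw [hid] at h0 h1 h2 h3
  exact ⟨L, inferInstance, inferInstance, g, hg, compIdeal (fanoIdeal (inFrame g F)),
    isComponentAtOrigin _ h0 h1, ⟨ℓ, algInd_of _ ℓ h3⟩,
    fun X s _ hX => dense_of_points _ h2 X s hX⟩

/-- The final theorem over the rational numbers. -/
theorem open_setQ : ∃ N : ℕ, ∀ F : MvPolynomial (Fin 10) ℚ, F.IsHomogeneous 3 →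
    (∀ e, ‖((coeff e F - coeff e F0 : ℚ) : ℚ_[2])‖ < (1 / 2) ^ N) →
    ∃ P : Ideal (MvPolynomial Idx ℚ), P ∈ (fanoIdeal F).minimalPrimes ∧
      (∃ ℓ : Fin 11 → MvPolynomial Idx ℚ, AlgebraicIndependent ℚ
        (fun i => (Ideal.Quotient.mk P (ℓ i) : MvPolynomial Idx ℚ ⧸ P))) ∧
      ∀ (X : Scheme.{0}) (s : X ⟶ Spec (CommRingCat.of ℚ)) [IrreducibleSpace X],
        BirationalOver ℚ X (affineScheme P) s (affineStr P) → PotentiallyDense ℚ X s := by
  obtain ⟨N, hN⟩ := open_set_core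
  refine ⟨N, fun F hF hc => ?_⟩
  obtain ⟨L, _, _, g, hg, hg0, h0, h1, h2, ℓ, h3⟩ := hN F hF hc
  set I' := fanoIdeal (cubic (frT (third F) g : Ten L)) with hI'
  set P' := compIdeal I' with hP'
  have h0' : ∀ f ∈ P', constantCoeff f = 0 := constantCoeff_of_mem_compIdeal I' h0
  let E := FractionRing (MvPolynomial Idx L ⧸ P')
  let y : Idx → E := fun q => algebraMap (MvPolynomial Idx L ⧸ P') E (Ideal.Quotient.mk P' (X q))
  have hyv : ∀ G : MvPolynomial Idx L, aeval y G =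
      algebraMap (MvPolynomial Idx L ⧸ P') E (Ideal.Quotient.mk P' G) := by
    intro G
    have h4 : (aeval y : MvPolynomial Idx L →ₐ[L] E) =
        (IsScalarTower.toAlgHom L (MvPolynomial Idx L ⧸ P') E).comp (Ideal.Quotient.mkₐ L P') := by
      apply MvPolynomial.algHom_ext
      intro q
      rw [aeval_X]
      rfl
    rw [h4]
    rfl
  have hy : ∀ G : MvPolynomial Idx L, aeval y G = 0 ↔ G ∈ P' := by
    intro G
    rw [hyv, map_eq_zero_iff _ (IsFractionRing.injective (MvPolynomial Idx L ⧸ P') E),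
      Ideal.Quotient.eq_zero_iff_mem]
  obtain ⟨hyu, hpts, hspec⟩ := desc_points (K := ℚ) g P' h0' hg0 y hy h2
  have hcF : fanoIdeal (cubic (third F)) = fanoIdeal F := by
    rw [cubic_third F hF, fanoIdeal_C_mul 6 (by norm_num)]
  let z : Idx → E := chg (g.map (algebraMap L E)) y
  let P : Ideal (MvPolynomial Idx ℚ) := RingHom.ker (aeval z : MvPolynomial Idx ℚ →ₐ[ℚ] E)
  have hPp : P.IsPrime := RingHom.ker_isPrime _
  have hPl : Pl (third F) z := by
    refine pl_chg (third F) (g.map (algebraMap L E)) y hyu fun i j k => ?_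
    have h4 : (frT (third F) (g.map (algebraMap L E)) : Ten E) =
        upT E (frT (third F) g : Ten L) := by
      funext a b c
      simp only [upT, frT]
      have h5 := tri_map (third F) (IsScalarTower.toAlgHom ℚ L E) (g a) (g b) (g c)
      rw [IsScalarTower.coe_toAlgHom'] at h5
      rw [h5]
      rfl
    rw [h4, tri_upT]
    have h5 := tri_mem_fanoIdeal (frT (third F) g : Ten L)
      (fun a b c => tri_swap12 (third_swap12 F) _ _ _)
      (fun a b c => tri_swap23 (third_swap23 F) _ _ _) i j k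
    have h6 := (hy _).2 (le_compIdeal I' h5)
    rw [tri_map] at h6
    have h7 : ∀ i, (fun l => aeval y (row (X : Idx → MvPolynomial Idx L) i l)) = row y i := by
      intro i
      funext l
      have := row_map ((aeval y : MvPolynomial Idx L →ₐ[L] E) : MvPolynomial Idx L →+* E) X i l
      simp only [RingHom.coe_coe, aeval_X] at this
      exact this
    rw [h7, h7, h7] at h6
    exact h6
  have hIP : fanoIdeal F ≤ P := by
    rw [← hcF]
    intro f hf
    exact aeval_fanoIdeal (third F) z hPl f hf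
  refine ⟨P, ⟨⟨hPp, hIP⟩, fun Q hQ hQP => ?_⟩, ?_, fun X s _ hX => ?_⟩
  · intro f hf
    exact desc_comp (third F) (third_swap12 F) (third_swap23 F) g hg hg0 y hyu hy Q hQ.1
      (by rw [hcF]; exact hQ.2) (fun f hf => hspec f (hQP hf)) f hf
  · obtain ⟨k, hk⟩ := desc_indep (K := ℚ) g hg y hyu (fun i => aeval y (ℓ i)) (by
      rw [algebraicIndependent_iff]
      intro G hG
      apply h3 G
      rw [← hy, ← hG]
      have h4 : (aeval y : MvPolynomial Idx L →ₐ[L] E).comp (aeval ℓ) =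
          aeval (fun i => aeval y (ℓ i)) := by
        apply MvPolynomial.algHom_ext
        intro i
        rw [AlgHom.comp_apply, aeval_X, aeval_X]
      rw [← h4]
      rfl) (fun i => by
      rw [Algebra.adjoin_range_eq_range_aeval]
      exact ⟨ℓ i, rfl⟩)
    refine ⟨fun i => X (k i), ?_⟩
    rw [algebraicIndependent_iff] at hk ⊢
    intro G hG
    apply hk G
    have h4 : (Ideal.Quotient.mkₐ ℚ P).comp (aeval fun i => (X (k i) : MvPolynomial Idx ℚ)) =
        aeval (fun i => (Ideal.Quotient.mk P (X (k i)) : MvPolynomial Idx ℚ ⧸ P)) := by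
      apply MvPolynomial.algHom_ext
      intro i
      rw [AlgHom.comp_apply, aeval_X, aeval_X]
      rfl
    rw [← h4, AlgHom.comp_apply] at hG
    have h5 : (aeval fun i => (X (k i) : MvPolynomial Idx ℚ)) G ∈ P :=
      Ideal.Quotient.eq_zero_iff_mem.1 hG
    have h6 : (aeval z : MvPolynomial Idx ℚ →ₐ[ℚ] E).comp
        (aeval fun i => (X (k i) : MvPolynomial Idx ℚ)) = aeval (fun i => z (k i)) := by
      apply MvPolynomial.algHom_ext
      intro i
      rw [AlgHom.comp_apply, aeval_X, aeval_X, aeval_X]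
    rw [← h6]
    exact h5
  · refine ⟨L, inferInstance, inferInstance, inferInstance, ?_⟩
    refine dense_ratPts_of_birational ℚ L X _ s _ hX (dense_ratPts_spec ℚ L _ fun b hb => ?_)
    obtain ⟨f, rfl⟩ := Ideal.Quotient.mk_surjective b
    rw [Ideal.Quotient.eq_zero_iff_mem]
    by_contra hf
    obtain ⟨u, hu1, hu2⟩ := hpts f hf
    have h4 := hb (Ideal.Quotient.liftₐ P (aeval u) (fun a ha => hu2 a ha))
    exact hu1 h4

end Pool.Agent.Helper76.CQ
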