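import Pool.Agent.Helper76.CY.Criterion
import Pool.Agent.Helper76.CQ.Core2
import Pool.Agent.Helper26.CQ.ArcM
import Pool.Agent.Helper82.CQ.Germ
import Pool.Agent.Helper81.CQ.GermArc
import Pool.Agent.Helper30.CQ.StepArcM

/-!
# Orbits of planes near a 2-adically attracting periodic plane
-/

namespace Pool.Agent.Helper76.CQ

open MvPolynomial Pool.Agent.Helper76.CY Filter Topology
open Pool.Agent.Helper26.CQ (arc_evalM)
open Pool.Agent.Helper26.CQ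
open Pool.Agent.Helper82.CQ (zer_prime)
open Pool.Agent.Helper82.CQ (sm_unit)
open Pool.Agent.Helper82.CQ (one_notMem_sm)
open Pool.Agent.Helper82.CQ (rat_inv)
open Pool.Agent.Helper82.CQ (rat_cst)
open Pool.Agent.Helper81.CQ (germ_arc)
open Pool.Agent.Helper30.CQ (step_arcM)

theorem ofNat_succ (n : ℕ) (i : Fin 10) :
    i + 1 + Fin.ofNat 10 n = i + Fin.ofNat 10 (n + 1) := by
  apply Fin.ext
  simp only [Fin.val_add, Fin.ofNat]
  have : ((1 : Fin 10) : ℕ) = 1 := rfl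
  rw [this]
  omega

theorem shift_iter {K : Type*} (D : Ten K) (n : ℕ) (i j k : Fin 10) :
    (shift^[n] D) i j k = D (i + Fin.ofNat 10 n) (j + Fin.ofNat 10 n) (k + Fin.ofNat 10 n) := by
  induction n generalizing i j k with
  | zero => simp
  | succ n ih =>
    rw [Function.iterate_succ_apply', shift, ih, ofNat_succ, ofNat_succ, ofNat_succ]

theorem shift_ten {K : Type*} (D : Ten K) : shift^[10] D = D := by
  funext i j k
  rw [shift_iter]
  have h : Fin.ofNat 10 10 = 0 := rfl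
  rw [h, add_zero, add_zero, add_zero]

section arcs

variable {K O : Type*} [Field K] [CharZero K] [CommRing O] [Algebra K O] (t : O) (m : Ideal O)
  (htm : t ∈ m) (hU : ∀ (x : O) (c : K), c ≠ 0 → x - algebraMap K O c ∈ m → IsUnit x)
  (S : Subring O) (hS : ∀ x ∈ S, ∀ y : O, x * y = 1 → y ∈ S)

include htm hU hS

theorem iterate_arcM (D : Ten K) (hDS : ∀ i j k, algebraMap K O (D i j k) ∈ S)
    (hW : ∀ n : ℕ, Window (shift^[n] D))
    (B : ℕ → (Idx → K) →ₗ[K] (Idx → K)) (hB : ∀ n τ, IsStep (shift^[n] D) τ (B n τ))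
    (τ : Idx → K) (a : Idx → O) (ha : ArcM t m S D τ a) (n : ℕ) :
    ∃ a' : Idx → O, ArcM t m S (shift^[n] D) (compB B n τ) a' := by
  induction n with
  | zero => exact ⟨a, ha⟩
  | succ n ih =>
    obtain ⟨a', ha'⟩ := ih
    rw [Function.iterate_succ_apply']
    exact step_arcM t m htm hU S hS _ (fun i j k => by rw [shift_iter]; exact hDS _ _ _) (hW n)
      _ _ (hB n _) a' ha'

theorem period_arcM (D : Ten K) (hDS : ∀ i j k, algebraMap K O (D i j k) ∈ S)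
    (hW : ∀ n : ℕ, Window (shift^[n] D))
    (B : ℕ → (Idx → K) →ₗ[K] (Idx → K)) (hB : ∀ n τ, IsStep (shift^[n] D) τ (B n τ))
    (r : ℕ) (hr : shift^[r] D = D) (τ : Idx → K) (a : Idx → O) (ha : ArcM t m S D τ a) (k : ℕ) :
    ∃ a' : Idx → O, ArcM t m S D ((compB B r ^ k) τ) a' := by
  induction k with
  | zero => exact ⟨a, ha⟩
  | succ k ih =>
    obtain ⟨a', ha'⟩ := ih
    obtain ⟨a'', ha''⟩ := iterate_arcM t m htm hU S hS D hDS hW B hB _ a' ha' r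
    rw [hr] at ha''
    refine ⟨a'', ?_⟩
    rw [pow_succ', Module.End.mul_apply]
    exact ha''

end arcs

instance : IsDomain GO := by
  have := zer_prime
  exact Ideal.Quotient.isDomain Zer

/-- The equations of the variety of planes, transferred from germs to sequences. -/
theorem pl_transfer (D : Ten ℚ_[2]) (b : Idx → GO) (y : ℕ → Idx → ℚ_[2])
    (hy : ∀ f : MvPolynomial Idx ℚ_[2], aeval b f = 0 ↔
      ∀ᶠ n in (UU : Filter ℕ), eval (y n) f = 0) (hb : Pl D b) :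
    ∀ᶠ n in (UU : Filter ℕ), Pl D (y n) := by
  have h1 : ∀ i j k : Fin 3, ∀ᶠ n in (UU : Filter ℕ),
      tri D (row (y n) i) (row (y n) j) (row (y n) k) = 0 := by
    intro i j k
    have h2 := (hy (tri D (row X i) (row X j) (row X k))).1 (by
      have h3 : ∀ i, (fun l => aeval b (row (X : Idx → MvPolynomial Idx ℚ_[2]) i l)) = row b i := by
        intro i
        funext l
        have := row_map ((aeval b : MvPolynomial Idx ℚ_[2] →ₐ[ℚ_[2]] GO) :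
          MvPolynomial Idx ℚ_[2] →+* GO) X i l
        simp only [RingHom.coe_coe, aeval_X] at this
        exact this
      rw [tri_map, h3, h3, h3]
      exact hb i j k)
    filter_upwards [h2] with n hn
    have h3 : ∀ i, (fun l => aeval (y n) (row (X : Idx → MvPolynomial Idx ℚ_[2]) i l)) =
        row (y n) i := by
      intro i
      funext l
      have := row_map ((aeval (y n) : MvPolynomial Idx ℚ_[2] →ₐ[ℚ_[2]] ℚ_[2]) :
        MvPolynomial Idx ℚ_[2] →+* ℚ_[2]) X i l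
      simp only [RingHom.coe_coe, aeval_X] at this
      exact this
    rw [← aeval_eq_eval] at hn
    have h4 := tri_map D (aeval (y n) : MvPolynomial Idx ℚ_[2] →ₐ[ℚ_[2]] ℚ_[2]) (row X i)
      (row X j) (row X k)
    rw [h3, h3, h3] at h4
    rw [← h4]
    exact hn
  simp only [Pl, eventually_all]
  exact h1

/-- Near the origin the return map moves planes closer to the origin, over the same field. -/
theorem contraction (D : Ten ℚ_[2]) (hW : ∀ n : ℕ, Window (shift^[n] D))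
    (B : ℕ → (Idx → ℚ_[2]) →ₗ[ℚ_[2]] (Idx → ℚ_[2]))
    (hB : ∀ n τ, IsStep (shift^[n] D) τ (B n τ)) (r : ℕ) (hr : shift^[r] D = D)
    (hC : ∀ v, ‖compB B r v‖ ≤ 1 / 2 * ‖v‖)
    (hinj : ∀ τ ∈ tanSp D, compB B r τ = 0 → τ = 0) :
    ∃ δ > 0, ∀ L : Subfield ℚ_[2], (∀ i j k, D i j k ∈ L) → ∀ x : Idx → ℚ_[2],
      (∀ q, x q ∈ L) → Pl D x → x ≠ 0 → ‖x‖ < δ →
      ∃ x' : Idx → ℚ_[2], (∀ q, x' q ∈ L) ∧ Pl D x' ∧ x' ≠ 0 ∧ ‖x'‖ ≤ 1 / 2 * ‖x‖ := by
  by_contra hcon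
  push Not at hcon
  have h1 : ∀ n : ℕ, ∃ (L : Subfield ℚ_[2]) (x : Idx → ℚ_[2]), (∀ i j k, D i j k ∈ L) ∧
      (∀ q, x q ∈ L) ∧ Pl D x ∧ x ≠ 0 ∧ ‖x‖ < 1 / ((n : ℝ) + 1) ∧
      ∀ x' : Idx → ℚ_[2], (∀ q, x' q ∈ L) → Pl D x' → x' ≠ 0 → 1 / 2 * ‖x‖ < ‖x'‖ := by
    intro n
    obtain ⟨L, hDL, x, hx, hp, h0, hn, hall⟩ := hcon (1 / ((n : ℝ) + 1)) (by positivity)
    exact ⟨L, x, hDL, hx, hp, h0, hn, hall⟩
  choose L x hDL hxL hxp hx0 hxn hall using h1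
  have hx : Tendsto x atTop (𝓝 0) := by
    rw [tendsto_zero_iff_norm_tendsto_zero]
    exact squeeze_zero (fun n => norm_nonneg _) (fun n => (hxn n).le)
      tendsto_one_div_add_atTop_nhds_zero_nat
  obtain ⟨t, w, a, ht0, htm, hw, ha, hback⟩ := germ_arc L x hxL hx0 hx D hxp
  have hU : ∀ (x : GO) (c : ℚ_[2]), c ≠ 0 → x - algebraMap ℚ_[2] GO c ∈ sm → IsUnit x :=
    fun x c hc h => sm_unit x c hc h
  have hDS : ∀ i j k, algebraMap ℚ_[2] GO (D i j k) ∈ rat L := fun i j k =>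
    rat_cst L _ fun n => hDL n i j k
  have hwT : w ∈ tanSp D := ArcM.tan ht0 htm one_notMem_sm (hW 0) ha
  have hw0 : w ≠ 0 := by
    intro h
    rw [h, norm_zero] at hw
    exact zero_ne_one hw
  obtain ⟨b, hb⟩ := period_arcM t sm htm hU (rat L) (fun x hx y h => rat_inv L x hx y h) D hDS hW
    B hB r hr w a ha 1
  rw [pow_one] at hb
  have hCw : compB B r w ≠ 0 := fun h => hw0 (hinj w hwT h)
  obtain ⟨y, hy1, hy2, hy3⟩ := hback b hb.mem
  have e1 := hy3 _ hCw hb.tangent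
  have e2 := pl_transfer D b y hy2 hb.plane
  obtain ⟨n, hn1, hn2⟩ := (e1.and e2).exists
  have h5 := hC w
  rw [hw, mul_one] at h5
  have h6 : y n ≠ 0 := by
    rw [← norm_ne_zero_iff, hn1]
    exact mul_ne_zero (norm_ne_zero_iff.2 (hx0 n)) (norm_ne_zero_iff.2 hCw)
  have h7 := hall n (y n) (hy1 n) hn2 h6
  rw [hn1, mul_comm] at h7
  exact absurd (lt_of_mul_lt_mul_left h7 (norm_nonneg _)) (not_lt.2 h5)

/-- The sequence of planes over a fixed field that tends to the periodic plane. -/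
theorem exists_seq (D : Ten ℚ_[2]) (δ : ℝ) (L : Subfield ℚ_[2])
    (h : ∀ x : Idx → ℚ_[2], (∀ q, x q ∈ L) → Pl D x → x ≠ 0 → ‖x‖ < δ →
      ∃ x' : Idx → ℚ_[2], (∀ q, x' q ∈ L) ∧ Pl D x' ∧ x' ≠ 0 ∧ ‖x'‖ ≤ 1 / 2 * ‖x‖)
    (x0 : Idx → ℚ_[2]) (h1 : ∀ q, x0 q ∈ L) (h2 : Pl D x0) (h3 : x0 ≠ 0) (h4 : ‖x0‖ < δ) :
    ∃ x : ℕ → Idx → ℚ_[2], (∀ n q, x n q ∈ L) ∧ (∀ n, Pl D (x n)) ∧ (∀ n, x n ≠ 0) ∧
      Tendsto x atTop (𝓝 0) := by
  let Good := {x : Idx → ℚ_[2] // (∀ q, x q ∈ L) ∧ Pl D x ∧ x ≠ 0 ∧ ‖x‖ < δ}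
  have h5 : ∀ g : Good, ∃ g' : Good, ‖g'.1‖ ≤ 1 / 2 * ‖g.1‖ := by
    rintro ⟨x, hx1, hx2, hx3, hx4⟩
    obtain ⟨x', hx'1, hx'2, hx'3, hx'4⟩ := h x hx1 hx2 hx3 hx4
    refine ⟨⟨x', hx'1, hx'2, hx'3, ?_⟩, hx'4⟩
    have := norm_nonneg x
    linarith
  choose f hf using h5
  let g0 : Good := ⟨x0, h1, h2, h3, h4⟩
  have h6 : ∀ n : ℕ, ‖(f^[n] g0).1‖ ≤ (1 / 2) ^ n * ‖x0‖ := by
    intro n
    induction n with
    | zero => simp [g0]
    | succ n ih =>
      rw [Function.iterate_succ_apply', pow_succ']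
      have := hf (f^[n] g0)
      have h7 : (1 / 2 : ℝ) * ‖(f^[n] g0).1‖ ≤ 1 / 2 * ((1 / 2) ^ n * ‖x0‖) :=
        mul_le_mul_of_nonneg_left ih (by norm_num)
      linarith [this, h7]
  refine ⟨fun n => (f^[n] g0).1, fun n => (f^[n] g0).2.1, fun n => (f^[n] g0).2.2.1,
    fun n => (f^[n] g0).2.2.2.1, ?_⟩
  rw [tendsto_zero_iff_norm_tendsto_zero]
  refine squeeze_zero (fun n => norm_nonneg _) h6 ?_
  have := (tendsto_pow_atTop_nhds_zero_of_lt_one (r := (1 / 2 : ℝ)) (by norm_num)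
    (by norm_num)).mul_const ‖x0‖
  rwa [zero_mul] at this

end Pool.Agent.Helper76.CQ
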