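import Pool.Agent.Helper76.CQ.Window
import Pool.Agent.Helper12.CQ.CharpolySplit
import Pool.Agent.Helper32.CQ.BzComp
import Pool.Agent.Helper45.CQ.FinrankTan
import Pool.Agent.Helper64.CQ.StepTan
import Pool.Agent.Helper67.CQ.Slope
import Pool.Agent.Helper8.CQ.StepInj
import Pool.Agent.Helper90.CQ.BaseData
import Pool.Agent.Helper96.CQ.Step0
import Pool.Agent.Helper94.CQ.Charpoly

/-!
# The return map near the base point
-/

namespace Pool.Agent.Helper76.CQ

open MvPolynomial Pool.Agent.Helper76.CY Filter Topology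
open Pool.Agent.Helper12.CQ (charpoly_split)
open Pool.Agent.Helper32.CQ (Bz_annih)
open Pool.Agent.Helper32.CQ (Bz_even)
open Pool.Agent.Helper32.CQ (Bz_trace)
open Pool.Agent.Helper45.CQ (finrank_tanSp)
open Pool.Agent.Helper64.CQ (step_tan)
open Pool.Agent.Helper64.CQ (step_unique)
open Pool.Agent.Helper67.CQ (slope_root)
open Pool.Agent.Helper67.CQ (slope_of_roots)
open Pool.Agent.Helper8.CQ (step_inj)
open Pool.Agent.Helper90.CQ (window_D0)
open Pool.Agent.Helper90.CQ (shift_D0)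
open Pool.Agent.Helper90.CQ (slope_chi0)
open Pool.Agent.Helper96.CQ (isStep_D0)
open Pool.Agent.Helper94.CQ (eig_pow)
open Pool.Agent.Helper94.CQ (continuousAt_charpoly)

section

variable {K : Type*} [Field K] [CharZero K]

theorem tanSp_step (D : Ten K) (hD : Window D) (τ τ' : Idx → K) (h : IsStep D τ τ')
    (hτ : τ ∈ tanSp D) : τ' ∈ tanSp (shift D) := by
  intro i j k
  rw [step_tan D hD τ τ' h]
  split_ifs
  · rfl
  · exact hτ _ _ _

theorem compB_mem (D : Ten K) (hW : ∀ n : ℕ, Window (shift^[n] D))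
    (B : ℕ → (Idx → K) →ₗ[K] (Idx → K)) (hB : ∀ n τ, IsStep (shift^[n] D) τ (B n τ))
    (τ : Idx → K) (hτ : τ ∈ tanSp D) (r : ℕ) : compB B r τ ∈ tanSp (shift^[r] D) := by
  induction r with
  | zero => exact hτ
  | succ r ih =>
    rw [Function.iterate_succ_apply']
    exact tanSp_step _ (hW r) _ _ (hB r _) ih

theorem compB_three (D : Ten K) (hW : ∀ n : ℕ, Window (shift^[n] D))
    (B : ℕ → (Idx → K) →ₗ[K] (Idx → K)) (hB : ∀ n τ, IsStep (shift^[n] D) τ (B n τ))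
    (v : Idx → K) : compB B 3 v ∈ tanSp (shift^[3] D) := by
  have h1 := step_tan _ (hW 0) _ _ (hB 0 v)
  have h2 := step_tan _ (hW 1) _ _ (hB 1 (B 0 v))
  have h3 := step_tan _ (hW 2) _ _ (hB 2 (B 1 (B 0 v)))
  intro i j k
  change tanVal (shift (shift^[2] D)) (B 2 (B 1 (B 0 v))) i j k = 0
  rw [h3]
  split_ifs with c1
  · rfl
  change tanVal (shift (shift^[1] D)) (B 1 (B 0 v)) _ _ _ = 0
  rw [h2]
  split_ifs with c2
  · rfl
  change tanVal (shift (shift^[0] D)) (B 0 v) _ _ _ = 0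
  rw [h1, if_pos]
  revert c1 c2
  revert i j k
  decide

theorem compB_range (D : Ten K) (hW : ∀ n : ℕ, Window (shift^[n] D))
    (B : ℕ → (Idx → K) →ₗ[K] (Idx → K)) (hB : ∀ n τ, IsStep (shift^[n] D) τ (B n τ))
    (v : Idx → K) (s : ℕ) : compB B (3 + s) v ∈ tanSp (shift^[3 + s] D) := by
  induction s with
  | zero => exact compB_three D hW B hB v
  | succ s ih =>
    rw [← add_assoc, Function.iterate_succ_apply']
    exact tanSp_step _ (hW _) _ _ (hB _ _) ih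

omit [CharZero K] in
theorem compB_const (B : (Idx → K) →ₗ[K] (Idx → K)) (r : ℕ) :
    compB (fun _ => B) r = B ^ r := by
  induction r with
  | zero => rfl
  | succ r ih =>
    rw [compB, ih, pow_succ']
    rfl

end

/-- The return map of the tensor `D`. -/
noncomputable def retB (B : Ten ℚ_[2] → ((Idx → ℚ_[2]) →ₗ[ℚ_[2]] (Idx → ℚ_[2])))
    (D : Ten ℚ_[2]) : (Idx → ℚ_[2]) →ₗ[ℚ_[2]] (Idx → ℚ_[2]) :=
  compB (fun n => B (shift^[n] D)) 10

theorem shift_iter_D0 (n : ℕ) : shift^[n] (D0 ℚ_[2]) = D0 ℚ_[2] :=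
  Function.iterate_fixed (shift_D0 ℚ_[2]) n

theorem continuous_shift (n : ℕ) : Continuous (fun D : Ten ℚ_[2] => shift^[n] D) := by
  have h : (fun D : Ten ℚ_[2] => shift^[n] D) = fun D i j k =>
      D (i + Fin.ofNat 10 n) (j + Fin.ofNat 10 n) (k + Fin.ofNat 10 n) := by
    funext D i j k
    exact shift_iter D n i j k
  rw [h]
  fun_prop

theorem apply_single {K : Type*} [Field K] (A : (Idx → K) →ₗ[K] (Idx → K)) (v : Idx → K)
    (p : Idx) : A v p = ∑ s, v s * A (Pi.single s 1) p := by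
  have h1 : v = ∑ q, v q • (Pi.single q 1 : Idx → K) := by
    funext q
    simp [Finset.sum_apply, Pi.single_apply]
  conv_lhs => rw [h1, map_sum, Finset.sum_apply]
  refine Finset.sum_congr rfl fun s _ => ?_
  rw [map_smul, Pi.smul_apply, smul_eq_mul]

section near

variable (B : Ten ℚ_[2] → ((Idx → ℚ_[2]) →ₗ[ℚ_[2]] (Idx → ℚ_[2])))
  (hB : ∀ D, Window D → ∀ τ, IsStep D τ (B D τ))
  (hBc : ∀ D, Window D → ∀ p q, ContinuousAt (fun D' => B D' (Pi.single q 1) p) D)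

include hBc in
theorem compB_continuousAt (r : ℕ) (p q : Idx) : ContinuousAt
    (fun D => compB (fun n => B (shift^[n] D)) r (Pi.single q 1) p) (D0 ℚ_[2]) := by
  induction r generalizing p with
  | zero => exact continuousAt_const
  | succ r ih =>
    have h1 : (fun D => compB (fun n => B (shift^[n] D)) (r + 1) (Pi.single q 1) p) =
        fun D => ∑ s, compB (fun n => B (shift^[n] D)) r (Pi.single q 1) s *
          B (shift^[r] D) (Pi.single s 1) p := by
      funext D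
      exact apply_single (B (shift^[r] D)) _ p
    rw [h1]
    refine tendsto_finsetSum _ fun s _ => ContinuousAt.mul (ih s) ?_
    have h2 := hBc (D0 ℚ_[2]) (window_D0 _) p s
    refine ContinuousAt.comp (f := fun D : Ten ℚ_[2] => shift^[r] D)
      (g := fun D' => B D' (Pi.single s 1) p) ?_ (continuous_shift r).continuousAt
    rw [shift_iter_D0]
    exact h2

/-- The differential at the base point. -/
noncomputable def B00 : (Idx → ℚ_[2]) →ₗ[ℚ_[2]] (Idx → ℚ_[2]) :=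
  Matrix.toLin' (Bz.map (Int.castRingHom ℚ_[2]))

include hB in
theorem B_D0 : B (D0 ℚ_[2]) = B00 := by
  apply LinearMap.ext
  intro τ
  refine step_unique _ (window_D0 _) τ _ _ (hB _ (window_D0 _) τ) ?_
  have h := isStep_D0 ℚ_[2] τ
  have h2 : B00 τ = fun p => ∑ q, (Bz p q : ℚ_[2]) * τ q := by
    funext p
    rw [B00, Matrix.toLin'_apply]
    rfl
  rw [h2]
  exact h

include hB in
theorem retB_D0 : retB B (D0 ℚ_[2]) = B00 ^ 10 := by
  rw [retB, ← compB_const]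
  congr 1
  funext n
  rw [shift_iter_D0, B_D0 B hB]

theorem B00_pow (n : ℕ) : B00 ^ n = Matrix.toLin' ((Bz ^ n).map (Int.castRingHom ℚ_[2])) := by
  rw [B00, ← Matrix.toLin'_pow, ← RingHom.mapMatrix_apply, ← RingHom.mapMatrix_apply,
    map_pow (RingHom.mapMatrix (Int.castRingHom ℚ_[2]))]

theorem B00_annih : B00 ^ 3 * Polynomial.aeval B00 (chi0.map (Int.castRingHom ℚ_[2])) = 0 := by
  have h1 : (Bz.map (Int.castRingHom ℚ_[2])) ^ 3 * Polynomial.aeval
      (Bz.map (Int.castRingHom ℚ_[2])) (chi0.map (Int.castRingHom ℚ_[2])) = 0 := by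
    have h2 := congrArg (RingHom.mapMatrix (Int.castRingHom ℚ_[2])) Bz_annih
    rw [map_mul, map_pow, map_zero] at h2
    rw [← h2]
    congr 1
    rw [Polynomial.aeval_def, Polynomial.eval₂_map, Polynomial.aeval_def, Polynomial.hom_eval₂]
    congr 1
    exact RingHom.ext_int _ _
  have h3 := congrArg (Matrix.toLinAlgEquiv' (R := ℚ_[2]) (n := Idx)) h1
  rw [map_mul, map_pow, map_zero] at h3
  have h4 : Matrix.toLinAlgEquiv' (R := ℚ_[2]) (n := Idx) (Bz.map (Int.castRingHom ℚ_[2])) =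
      B00 := rfl
  rw [← h4, ← h3]
  congr 1
  exact (Polynomial.aeval_algHom_apply (Matrix.toLinAlgEquiv' (R := ℚ_[2]) (n := Idx)).toAlgHom
    _ _)

theorem B00_pow_single (n : ℕ) (p q : Idx) :
    (B00 ^ n) (Pi.single q 1) p = ((Bz ^ n) p q : ℚ_[2]) := by
  rw [B00_pow, Matrix.toLin'_apply, Matrix.mulVec_single_one]
  rfl

theorem norm_le_half {z : ℤ} (h : 2 ∣ z) : ‖(z : ℚ_[2])‖ ≤ 1 / 2 := by
  obtain ⟨c, rfl⟩ := h
  rw [Int.cast_mul, norm_mul]
  have h1 : ‖((2 : ℤ) : ℚ_[2])‖ = 1 / 2 := by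
    have := Padic.norm_p (p := 2)
    rw [← one_div] at this
    exact_mod_cast this
  rw [h1]
  have h2 := Padic.norm_int_le_one (p := 2) c
  linarith

theorem norm_apply_le (A : (Idx → ℚ_[2]) →ₗ[ℚ_[2]] (Idx → ℚ_[2])) (c : ℝ) (hc : 0 ≤ c)
    (h : ∀ p q, ‖A (Pi.single q 1) p‖ ≤ c) (v : Idx → ℚ_[2]) : ‖A v‖ ≤ c * ‖v‖ := by
  rw [pi_norm_le_iff_of_nonneg (mul_nonneg hc (norm_nonneg _))]
  intro p
  rw [apply_single]
  refine IsUltrametricDist.norm_sum_le_of_forall_le_of_nonneg (mul_nonneg hc (norm_nonneg _))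
    fun s _ => ?_
  rw [norm_mul, mul_comm]
  exact mul_le_mul (h p s) (norm_le_pi_norm v s) (norm_nonneg _) hc

/-- The characteristic polynomial on the tangent space. -/
theorem exists_chi (D : Ten ℚ_[2]) (hW : ∀ n : ℕ, Window (shift^[n] D)) (hB : ∀ D, Window D → ∀ τ, IsStep D τ (B D τ)) :
    ∃ χ : Polynomial ℚ_[2], χ.Monic ∧ χ.natDegree = 11 ∧
      (retB B D).charpoly = Polynomial.X ^ 10 * χ ∧
      (∀ τ ∈ tanSp D, Polynomial.aeval (retB B D) χ τ = 0) ∧
      (χ.coeff 0 = 0 → ∃ τ ∈ tanSp D, τ ≠ 0 ∧ retB B D τ = 0) := by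
  refine charpoly_split (retB B D) (tanSp D) (fun v => ?_) (finrank_tanSp D (hW 0)) ?_
  · have h := compB_range D hW (fun n => B (shift^[n] D)) (fun n τ => hB _ (hW n) τ) v 7
    have h2 : shift^[3 + 7] D = D := shift_ten D
    rw [h2] at h
    exact h
  · rw [Module.finrank_fintype_fun_eq_card]
    rfl

theorem slope_D0 (hB : ∀ D, Window D → ∀ τ, IsStep D τ (B D τ)) (χ : Polynomial ℚ_[2])
    (hm : χ.Monic) (hd : χ.natDegree = 11)
    (hc : (retB B (D0 ℚ_[2])).charpoly = Polynomial.X ^ 10 * χ)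
    (h0 : χ.coeff 0 = 0 → ∃ τ ∈ tanSp (D0 ℚ_[2]), τ ≠ 0 ∧ retB B (D0 ℚ_[2]) τ = 0) :
    Slope 30 χ ∧ χ.coeff 10 ≠ 0 := by
  have hW : ∀ n : ℕ, Window (shift^[n] (D0 ℚ_[2])) := fun n => by
    rw [shift_iter_D0]
    exact window_D0 _
  constructor
  · refine slope_of_roots hm hd fun z hz => ?_
    have h1 : Polynomial.aeval z (B00 ^ 10).charpoly = 0 := by
      rw [← retB_D0 B hB, hc, map_mul, hz, mul_zero]
    rcases eig_pow B00 _ 3 B00_annih 10 (by norm_num) z h1 with h2 | ⟨w, hw, hzw⟩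
    · exfalso
      rw [h2] at hz
      have h3 : χ.coeff 0 = 0 := by
        have h4 : algebraMap ℚ_[2] (PadicAlgCl 2) (χ.coeff 0) = 0 := by
          rw [Polynomial.coeff_zero_eq_aeval_zero', hz]
        exact (map_eq_zero _).1 h4
      obtain ⟨τ, hτ, hτ0, hτ1⟩ := h0 h3
      have hinj : ∀ τ ∈ tanSp (D0 ℚ_[2]), B00 τ = 0 → τ = 0 := by
        intro τ hτ h
        refine step_inj _ (window_D0 _) τ hτ ?_
        rw [← h, ← B_D0 B hB]
        exact hB _ (window_D0 _) τ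
      have hst : ∀ τ ∈ tanSp (D0 ℚ_[2]), B00 τ ∈ tanSp (D0 ℚ_[2]) := by
        intro τ hτ
        have h5 := tanSp_step _ (window_D0 ℚ_[2]) τ _ (hB _ (window_D0 _) τ) hτ
        rwa [shift_D0, B_D0 B hB] at h5
      have hall : ∀ n : ℕ, ∀ τ ∈ tanSp (D0 ℚ_[2]), (B00 ^ n) τ = 0 → τ = 0 := by
        intro n
        induction n with
        | zero => intro τ _ h; exact h
        | succ n ih =>
          intro τ hτ h
          rw [pow_succ, Module.End.mul_apply] at h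
          exact hinj τ hτ (ih _ (hst τ hτ) h)
      rw [retB_D0 B hB] at hτ1
      exact hτ0 (hall 10 τ hτ hτ1)
    · have h3 := slope_root slope_chi0 w hw
      rw [hzw, norm_pow, ← pow_mul, mul_comm, pow_mul, h3, ← pow_mul]
  · intro h10
    have h1 : (retB B (D0 ℚ_[2])).charpoly.coeff 20 = 0 := by
      rw [hc, show (20 : ℕ) = 10 + 10 from rfl, Polynomial.coeff_X_pow_mul, h10]
    rw [retB_D0 B hB, B00_pow, Matrix.charpoly_toLin'] at h1
    have h2 := Matrix.trace_eq_neg_charpoly_coeff ((Bz ^ 10).map (Int.castRingHom ℚ_[2]))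
    have h3 : Fintype.card Idx - 1 = 20 := rfl
    rw [h3, h1, neg_zero] at h2
    apply Bz_trace
    have h4 : ((Bz ^ 10).map (Int.castRingHom ℚ_[2])).trace =
        (((Bz ^ 10).trace : ℤ) : ℚ_[2]) := by
      rw [Matrix.trace, Matrix.trace, Int.cast_sum]
      rfl
    rw [h4] at h2
    exact_mod_cast h2

end near

/-- Near the base point the return map contracts, with a good characteristic polynomial. -/
theorem near (B : Ten ℚ_[2] → ((Idx → ℚ_[2]) →ₗ[ℚ_[2]] (Idx → ℚ_[2])))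
    (hB : ∀ D, Window D → ∀ τ, IsStep D τ (B D τ))
    (hBc : ∀ D, Window D → ∀ p q, ContinuousAt (fun D' => B D' (Pi.single q 1) p) D) :
    ∃ ε > 0, ∀ D : Ten ℚ_[2], (∀ n : ℕ, Window (shift^[n] D)) →
      (∀ i j k, ‖D i j k - D0 ℚ_[2] i j k‖ < ε) →
      (∀ v, ‖retB B D v‖ ≤ 1 / 2 * ‖v‖) ∧ ∃ χ : Polynomial ℚ_[2], Slope 30 χ ∧
        χ.coeff 10 ≠ 0 ∧ ∀ τ ∈ tanSp D, Polynomial.aeval (retB B D) χ τ = 0 := by
  have hW0 : ∀ n : ℕ, Window (shift^[n] (D0 ℚ_[2])) := fun n => by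
    rw [shift_iter_D0]
    exact window_D0 _
  obtain ⟨χ₀, hm0, hd0, hc0, -, hz0⟩ := exists_chi B _ hW0 hB
  obtain ⟨hs0, h10⟩ := slope_D0 B hB χ₀ hm0 hd0 hc0 hz0
  have hcont : ∀ p q, ContinuousAt (fun D => retB B D (Pi.single q 1) p) (D0 ℚ_[2]) :=
    fun p q => compB_continuousAt B hBc 10 p q
  have hch : ∀ i, ContinuousAt (fun D => (retB B D).charpoly.coeff i) (D0 ℚ_[2]) := fun i =>
    continuousAt_charpoly (fun D => retB B D) _ hcont i
  obtain ⟨η, hη0, hη1, hη2⟩ : ∃ η : ℝ, 0 < η ∧ η ≤ (1 / 2) ^ 30 ∧ η ≤ ‖χ₀.coeff 10‖ :=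
    ⟨min ((1 / 2) ^ 30) ‖χ₀.coeff 10‖, lt_min (by positivity) (norm_pos_iff.2 h10),
      min_le_left _ _, min_le_right _ _⟩
  have e1 : ∀ p q, ∀ᶠ D in 𝓝 (D0 ℚ_[2]),
      ‖retB B D (Pi.single q 1) p - retB B (D0 ℚ_[2]) (Pi.single q 1) p‖ < 1 / 2 := by
    intro p q
    have := Metric.continuousAt_iff'.1 (hcont p q) (1 / 2) (by norm_num)
    simpa only [dist_eq_norm] using this
  have e2 : ∀ i, ∀ᶠ D in 𝓝 (D0 ℚ_[2]),
      ‖(retB B D).charpoly.coeff i - (retB B (D0 ℚ_[2])).charpoly.coeff i‖ < η := by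
    intro i
    have := Metric.continuousAt_iff'.1 (hch i) η hη0
    simpa only [dist_eq_norm] using this
  have e3 : ∀ᶠ D in 𝓝 (D0 ℚ_[2]), (∀ p q : Idx,
      ‖retB B D (Pi.single q 1) p - retB B (D0 ℚ_[2]) (Pi.single q 1) p‖ < 1 / 2) ∧
      ∀ i : Fin 21, ‖(retB B D).charpoly.coeff i - (retB B (D0 ℚ_[2])).charpoly.coeff i‖ < η :=
    (eventually_all.2 fun p => eventually_all.2 fun q => e1 p q).and
      (eventually_all.2 fun i => e2 i)
  obtain ⟨ε, hε, hball⟩ := Metric.eventually_nhds_iff.1 e3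
  refine ⟨ε, hε, fun D hW hD => ?_⟩
  obtain ⟨h1, h2⟩ := hball (y := D) (by
    rw [dist_eq_norm, pi_norm_lt_iff hε]
    intro i
    rw [pi_norm_lt_iff hε]
    intro j
    rw [pi_norm_lt_iff hε]
    intro k
    exact hD i j k)
  have hD0n : ∀ p q, ‖retB B (D0 ℚ_[2]) (Pi.single q 1) p‖ ≤ 1 / 2 := by
    intro p q
    rw [retB_D0 B hB, B00_pow_single]
    exact norm_le_half (Bz_even p q)
  refine ⟨norm_apply_le _ _ (by norm_num) fun p q => ?_, ?_⟩
  · have h3 := Padic.nonarchimedean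
      (retB B D (Pi.single q 1) p - retB B (D0 ℚ_[2]) (Pi.single q 1) p)
      (retB B (D0 ℚ_[2]) (Pi.single q 1) p)
    rw [sub_add_cancel] at h3
    exact h3.trans (max_le (h1 p q).le (hD0n p q))
  · obtain ⟨χ, hm, hd, hc, hk, -⟩ := exists_chi B D hW hB
    have h3 : ∀ i < 11, ‖χ.coeff i - χ₀.coeff i‖ < η := by
      intro i hi
      have h4 := h2 ⟨i + 10, by omega⟩
      rw [hc, hc0] at h4
      simp only [Polynomial.coeff_X_pow_mul] at h4
      exact h4
    have hpow : (1 / 2 : ℝ) ^ 30 ≤ 1 := pow_le_one₀ (by norm_num) (by norm_num)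
    refine ⟨χ, ⟨hm, hd, fun i hi => ?_, ?_⟩, ?_, hk⟩
    · have h5 := Padic.nonarchimedean (χ.coeff i - χ₀.coeff i) (χ₀.coeff i)
      rw [sub_add_cancel] at h5
      rcases le_max_iff.1 h5 with h6 | h6
      · have h7 : ‖χ.coeff i‖ ≤ (1 / 2) ^ 30 := h6.trans ((h3 i hi).le.trans hη1)
        calc ‖χ.coeff i‖ ^ 11 ≤ ((1 / 2 : ℝ) ^ 30) ^ 11 := pow_le_pow_left₀ (norm_nonneg _) h7 _
          _ = (1 / 2 : ℝ) ^ (30 * 11) := by rw [← pow_mul]
          _ ≤ (1 / 2 : ℝ) ^ (30 * (11 - i)) :=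
            pow_le_pow_of_le_one (by norm_num) (by norm_num) (by omega)
      · exact (pow_le_pow_left₀ (norm_nonneg _) h6 _).trans (hs0.le i hi)
    · rw [← hs0.zero]
      apply Padic.norm_eq_of_norm_sub_lt_right
      rw [hs0.zero]
      exact (h3 0 (by norm_num)).trans_le hη1
    · intro h
      have h5 := h3 10 (by norm_num)
      rw [h, zero_sub, norm_neg] at h5
      exact absurd h5 (not_lt.2 hη2)

end Pool.Agent.Helper76.CQ
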