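import Pool.Agent.Helper76.CQ.Main
import Pool.Agent.Helper26.CQ.ArcM
import Pool.Agent.Helper82.CQ.Germ
import Pool.Agent.Helper81.CQ.GermArc

/-!
# Density of algebraic planes near a 2-adically attracting periodic plane
-/

namespace Pool.Agent.Helper76.CQ

open MvPolynomial Pool.Agent.Helper76.CY Filter Topology
open Pool.Agent.Helper81.CY Pool.Agent.Helper49.CY Pool.Agent.Helper51.CY Pool.Agent.Helper52.CY
open Pool.Agent.Helper26.CQ
open Pool.Agent.Helper82.CQ (sm_unit)
open Pool.Agent.Helper82.CQ (one_notMem_sm)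
open Pool.Agent.Helper82.CQ (rat_inv)
open Pool.Agent.Helper82.CQ (rat_cst)
open Pool.Agent.Helper81.CQ (germ_arc)

theorem tri_upT {K K' R : Type*} [CommRing K] [CommRing K'] [CommRing R] [Algebra K K']
    [Algebra K R] [Algebra K' R] [IsScalarTower K K' R] (D : Ten K) (x y z : Fin 10 → R) :
    tri (upT K' D) x y z = tri D x y z := by
  simp only [tri, upT, ← IsScalarTower.algebraMap_apply K K' R]

theorem tri_up {K K' : Type*} [CommRing K] [CommRing K'] [Algebra K K'] (D : Ten K)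
    (x y z : Fin 10 → K) : tri (upT K' D) (fun i => algebraMap K K' (x i))
      (fun i => algebraMap K K' (y i)) (fun i => algebraMap K K' (z i)) =
      algebraMap K K' (tri D x y z) := by
  rw [tri_upT]
  exact (tri_map D (Algebra.ofId K K') x y z).symm

theorem bv_up {K K' : Type*} [CommRing K] [CommRing K'] [Algebra K K'] (j : Fin 10) :
    bv K' j = fun i => algebraMap K K' (bv K j i) := by
  funext i
  rw [bv_apply, bv_apply]
  split_ifs <;> simp

theorem tv_up {K K' : Type*} [CommRing K] [CommRing K'] [Algebra K K'] (τ : Idx → K)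
    (i : Fin 3) : tv (fun q => algebraMap K K' (τ q)) i = fun j => algebraMap K K' (tv τ i j) := by
  funext j
  simp only [tv]
  split_ifs <;> simp

theorem tanVal_up {K K' : Type*} [Field K] [Field K'] [Algebra K K'] (D : Ten K) (τ : Idx → K)
    (i j k : Fin 3) : tanVal (upT K' D) (fun q => algebraMap K K' (τ q)) i j k =
      algebraMap K K' (tanVal D τ i j k) := by
  simp only [tanVal, tv_up, bv_up (K := K) (K' := K'), tri_up, map_add]

theorem window_down {K K' : Type*} [Field K] [Field K'] [Algebra K K'] (D : Ten K)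
    (h : Window (upT K' D)) : Window D := by
  have inj := (algebraMap K K').injective
  refine ⟨fun i j k => inj (h.swap12 i j k), fun i j k => inj (h.swap23 i j k),
    fun i j k h1 h2 h3 h4 => inj ?_, fun h0 => h.alpha ?_, fun m h0 h1 h2 h3 hm => ?_⟩
  · rw [map_zero]
    exact h.zero i j k h1 h2 h3 h4
  · rw [upT, h0, map_zero]
  · have h5 := h.nondeg (fun i => algebraMap K K' (m i)) (by simp [h0]) (by simp [h1])
      (by simp [h2]) (by simp [h3]) (fun i j => by
        rw [bv_up (K := K) (K' := K'), bv_up (K := K) (K' := K'), tri_up, hm, map_zero])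
    funext i
    apply inj
    rw [Pi.zero_apply, map_zero]
    exact congrFun h5 i

/-- The main theorem on tensors with a periodic plane. -/
theorem main_window {K : Type*} [Field K] [CharZero K] [Algebra K ℚ_[2]] (D : Ten K)
    (hW : ∀ n : ℕ, Window (shift^[n] (upT ℚ_[2] D)))
    (B : ℕ → (Idx → ℚ_[2]) →ₗ[ℚ_[2]] (Idx → ℚ_[2]))
    (hB : ∀ n τ, IsStep (shift^[n] (upT ℚ_[2] D)) τ (B n τ)) (r : ℕ)
    (hr : shift^[r] (upT ℚ_[2] D) = upT ℚ_[2] D)
    (χ : Polynomial ℚ_[2]) (hχ : Irreducible χ) (hdeg : χ.natDegree = 11)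
    (hχC : ∀ τ ∈ tanSp (upT ℚ_[2] D), Polynomial.aeval (compB B r) χ τ = 0)
    {M : Type*} [Field M] [Algebra ℚ_[2] M] (μ : Fin 11 → M) (hμ : Function.Injective μ)
    (hroot : ∀ i, Polynomial.aeval (μ i) χ = 0)
    (hind : ∀ a b : Fin 11 → ℕ, ∑ i, a i = ∑ i, b i → ∏ i, μ i ^ a i = ∏ i, μ i ^ b i → a = b)
    (x : ℕ → Idx → ℚ_[2]) (hxL : ∀ n q, x n q ∈ (algebraMap K ℚ_[2]).fieldRange)
    (hpl : ∀ n, Pl (upT ℚ_[2] D) (x n)) (hx0 : ∀ n, x n ≠ 0) (hx : Tendsto x atTop (𝓝 0)) :
    (compIdeal (fanoIdeal (cubic D))).IsPrime ∧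
      (∀ f, f ∉ compIdeal (fanoIdeal (cubic D)) → ∃ y : Idx → K, eval y f ≠ 0 ∧
        ∀ g ∈ compIdeal (fanoIdeal (cubic D)), eval y g = 0) ∧
      ∃ ℓ : Fin 11 → MvPolynomial Idx K, ∀ G : MvPolynomial (Fin 11) K,
        aeval ℓ G ∈ compIdeal (fanoIdeal (cubic D)) → G = 0 := by
  classical
  set L : ℕ → Subfield ℚ_[2] := fun _ => (algebraMap K ℚ_[2]).fieldRange with hLdef
  obtain ⟨t, w, a, ht0, htm, hw, ha, hback⟩ := germ_arc L x hxL hx0 hx _ hpl
  have hU : ∀ (x : GO) (c : ℚ_[2]), c ≠ 0 → x - algebraMap ℚ_[2] GO c ∈ sm → IsUnit x :=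
    fun x c hc h => sm_unit x c hc h
  have hDS : ∀ i j k, algebraMap ℚ_[2] GO (upT ℚ_[2] D i j k) ∈ rat L := fun i j k =>
    rat_cst L _ fun n => ⟨D i j k, rfl⟩
  have hw0 : w ≠ 0 := by
    intro h
    rw [h, norm_zero] at hw
    exact zero_ne_one hw
  have harc := period_arcM t sm htm hU (rat L) (fun x hx y h => rat_inv L x hx y h) _ hDS hW B hB
    r hr w a ha
  choose A hA using harc
  have hD' : Window (upT ℚ_[2] D) := hW 0
  have hD : Window D := window_down D hD'
  obtain ⟨π, hπ0, hπ⟩ := Pool.Agent.Helper86.CY.tangent_proj_of_section D hD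
    (Pool.Agent.Helper21.CY.exists_section D hD)
  have hwT : w ∈ tanSp (upT ℚ_[2] D) := ArcM.tan ht0 htm one_notMem_sm hD' ha
  have hli := linIndep_orbit χ hχ hdeg (compB B r) w hw0 (hχC w hwT)
  have htan : ∀ n, (compB B r ^ n) w ∈ tanSp (upT ℚ_[2] D) := fun n =>
    ArcM.tan ht0 htm one_notMem_sm hD' (hA n)
  -- the projection over the 2-adic numbers
  let π' : (Idx → ℚ_[2]) →ₗ[ℚ_[2]] (Idx → ℚ_[2]) :=
    Matrix.toLin' (Matrix.of fun p q => algebraMap K ℚ_[2] (π (Pi.single q 1) p))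
  have hππ : ∀ p q, π' (Pi.single q 1) p = algebraMap K ℚ_[2] (π (Pi.single q 1) p) := by
    intro p q
    rw [Matrix.toLin'_apply, Matrix.mulVec_single_one]
    rfl
  have hπ'T : ∀ v, π' v ∈ tanSp (upT ℚ_[2] D) := by
    intro v
    have h1 : v = ∑ q, v q • (Pi.single q 1 : Idx → ℚ_[2]) := by
      funext q
      simp [Finset.sum_apply, Pi.single_apply]
    rw [h1, map_sum]
    refine Submodule.sum_mem _ fun q _ => ?_
    rw [map_smul]
    refine Submodule.smul_mem _ _ fun i j k => ?_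
    have h2 : π' (Pi.single q 1) = fun p => algebraMap K ℚ_[2] (π (Pi.single q 1) p) := by
      funext p
      exact hππ p q
    rw [h2, tanVal_up, hπ0, map_zero]
  have hspan : ∀ v, π' v ∈ Submodule.span ℚ_[2] (Set.range (fun i : Fin 11 =>
      (fun n : ℕ => (compB B r ^ n) w) i)) := by
    intro v
    exact Pool.Agent.Helper86.CY.tangent_span (upT ℚ_[2] D) hD'
      (fun i : Fin 11 => (compB B r ^ (i : ℕ)) w) hli (fun l => htan l) (π' v) (hπ'T v)
  have hrec : ∀ n q, ∑ i ∈ Finset.range 12, χ.coeff i * ((compB B r ^ (n + i)) w) q = 0 := by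
    intro n q
    have h1 : (compB B r ^ n) (Polynomial.aeval (compB B r) χ w) = 0 := by
      rw [hχC w hwT, map_zero]
    rw [Polynomial.aeval_eq_sum_range, hdeg, LinearMap.sum_apply, map_sum] at h1
    have h2 := congrFun h1 q
    rw [Finset.sum_apply] at h2
    rw [Pi.zero_apply] at h2
    rw [← h2]
    refine Finset.sum_congr rfl fun i _ => ?_
    rw [LinearMap.smul_apply, map_smul, Pi.smul_apply, smul_eq_mul, pow_add,
      Module.End.mul_apply]
  have horb : ∀ (f : MvPolynomial Idx ℚ_[2]) (d : ℕ), f.IsHomogeneous d →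
      (∀ n, eval ((fun n : ℕ => (compB B r ^ n) w) n) f = 0) →
      aeval (fun q => ∑ i : Fin 11, C ((fun n : ℕ => (compB B r ^ n) w) i q) * X i :
        Idx → MvPolynomial (Fin 11) ℚ_[2]) f = 0 := by
    intro f d hf hv
    exact orbit_form_of (fun χ hdeg μ hμ hroot v hrec => recurrence_sum χ hdeg μ hμ hroot v hrec)
      (fun μ hind G d hG h => form_zero μ hind G d hG h) χ hdeg μ hμ hroot hind
      (fun n : ℕ => (compB B r ^ n) w) hrec f d hf hv
  let _ : Algebra K GO := ((algebraMap ℚ_[2] GO).comp (algebraMap K ℚ_[2])).toAlgebra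
  have _ : IsScalarTower K ℚ_[2] GO := IsScalarTower.of_algebraMap_eq fun _ => rfl
  obtain ⟨h1, h2, h3, h4⟩ := core2 (K := K) (K' := ℚ_[2]) t sm ht0 htm one_notMem_sm hU
    (fanoIdeal (cubic D)) π (hπ _ (tri_mem_fanoIdeal D hD.swap12 hD.swap23)) π' hππ
    (fun n : ℕ => (compB B r ^ n) w) A (fun n => (hA n).tangent)
    (fun n g hg => aeval_fanoIdeal D (A n) (fun i j k => by
      rw [← tri_upT (K' := ℚ_[2])]
      exact (hA n).plane i j k) g hg) hspan hli horb
  refine ⟨h1, fun f hf => ?_, h4⟩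
  obtain ⟨n, hn⟩ := h3 f hf
  obtain ⟨y, hy1, hy2, -⟩ := hback (A n) (hA n).mem
  have hmap : ∀ g : MvPolynomial Idx K,
      aeval (A n) (MvPolynomial.map (algebraMap K ℚ_[2]) g) = aeval (A n) g := fun g =>
    aeval_map_algebraMap ℚ_[2] (A n) g
  have e1 : ∀ᶠ k in (UU : Filter ℕ), eval (y k) (MvPolynomial.map (algebraMap K ℚ_[2]) f) ≠ 0 := by
    rw [Ultrafilter.eventually_not, ← hy2, hmap]
    exact hn
  obtain ⟨s, hs⟩ := (isNoetherian_def.1 (inferInstance : IsNoetherian (MvPolynomial Idx K)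
    (MvPolynomial Idx K))) (compIdeal (fanoIdeal (cubic D)))
  have e2 : ∀ᶠ k in (UU : Filter ℕ), ∀ g ∈ s,
      eval (y k) (MvPolynomial.map (algebraMap K ℚ_[2]) g) = 0 := by
    rw [Filter.eventually_all_finset]
    intro g hg
    rw [← hy2, hmap]
    apply h2 n
    rw [← hs]
    exact Submodule.subset_span hg
  obtain ⟨k, hk1, hk2⟩ := (e1.and e2).exists
  have h5 : ∀ q, ∃ z : K, algebraMap K ℚ_[2] z = y k q := fun q => hy1 k q
  choose z hz using h5
  have h6 : ∀ g : MvPolynomial Idx K, algebraMap K ℚ_[2] (eval z g) =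
      eval (y k) (MvPolynomial.map (algebraMap K ℚ_[2]) g) := by
    intro g
    have : y k = algebraMap K ℚ_[2] ∘ z := funext fun q => (hz q).symm
    have e1 := aeval_algebraMap_apply ℚ_[2] z g
    have e2 := aeval_map_algebraMap ℚ_[2] (algebraMap K ℚ_[2] ∘ z) g
    rw [e1, aeval_eq_eval, aeval_eq_eval] at e2
    rw [this]
    exact e2.symm
  refine ⟨z, fun h0 => hk1 ?_, fun g hg => ?_⟩
  · rw [← h6, h0, map_zero]
  · have h7 : compIdeal (fanoIdeal (cubic D)) ≤ RingHom.ker (eval z) := by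
      rw [← hs]
      refine Submodule.span_le.2 fun g hg => ?_
      rw [SetLike.mem_coe, RingHom.mem_ker]
      apply (algebraMap K ℚ_[2]).injective
      rw [h6, map_zero]
      exact hk2 g hg
    exact h7 hg

end Pool.Agent.Helper76.CQ
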